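import Mathlib
import Pool.Agent.H153R4.Pl

/-!
A lemma of Gallagher's type: the mean square of `∫ e(t θ(ω)) H(ω) dμ(ω)` over `|t| ≤ T` is at most
`4 / δ ^ 2` times the integral over `s` of the square of the integral of `H` over the window
`|s - θ(ω)| ≤ δ / 2`, if `T δ ≤ 1 / 3`.
-/

set_option autoImplicit false
set_option linter.unusedSectionVars false

open MeasureTheory Real Set Filter Topology
open scoped ENNReal FourierTransform

namespace Pool.Agent.U37.Sch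

/-- `e(x) = exp(2 π i x)` -/
noncomputable def e (x : ℝ) : ℂ := Complex.exp (2 * π * Complex.I * (x : ℂ))

lemma e_norm (x : ℝ) : ‖e x‖ = 1 := by
  have : (2 * π * Complex.I * (x : ℂ)) = ((2 * π * x : ℝ) : ℂ) * Complex.I := by push_cast; ring
  rw [e, this, Complex.norm_exp_ofReal_mul_I]

lemma e_add (x y : ℝ) : e (x + y) = e x * e y := by
  rw [e, e, e, ← Complex.exp_add]; congr 1; push_cast; ring

lemma e_cont : Continuous e := by unfold e; fun_prop

lemma e_re (x : ℝ) : (e x).re = Real.cos (2 * π * x) := by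
  have : (2 * π * Complex.I * (x : ℂ)) = ((2 * π * x : ℝ) : ℂ) * Complex.I := by push_cast; ring
  rw [e, this, Complex.exp_ofReal_mul_I_re]

/-- the integral of `e(t u)` over a short window is not small -/
lemma win {δ t : ℝ} (hδ : 0 < δ) (ht : |t| * δ ≤ 1 / 3) :
    δ / 2 ≤ ‖∫ u in Icc (-(δ / 2)) (δ / 2), e (t * u)‖ := by
  have hint : IntegrableOn (fun u : ℝ => e (t * u)) (Icc (-(δ / 2)) (δ / 2)) :=
    (e_cont.comp (by fun_prop : Continuous fun u : ℝ => t * u)).integrableOn_Icc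
  have h1 : (∫ u in Icc (-(δ / 2)) (δ / 2), e (t * u)).re =
      ∫ u in Icc (-(δ / 2)) (δ / 2), (e (t * u)).re := by
    have := integral_re (𝕜 := ℂ) hint
    simpa using this.symm
  have h2 : δ / 2 ≤ ∫ u in Icc (-(δ / 2)) (δ / 2), (e (t * u)).re := by
    have h3 : ∫ u in Icc (-(δ / 2)) (δ / 2), (1 / 2 : ℝ) = δ / 2 := by
      rw [setIntegral_const, measureReal_def, Real.volume_Icc, ENNReal.toReal_ofReal (by linarith)]
      simp only [smul_eq_mul]; ring
    refine h3.symm.le.trans ?_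
    refine setIntegral_mono_on ?_ ?_ measurableSet_Icc ?_
    · exact (continuous_const (y := (1 / 2 : ℝ))).integrableOn_Icc
    · exact hint.re
    · intro u hu
      rw [e_re]
      have h4 : |2 * π * (t * u)| ≤ π / 3 := by
        rw [abs_mul (2 * π), abs_mul t, abs_of_pos (by positivity : (0 : ℝ) < 2 * π)]
        have hu' : |u| ≤ δ / 2 := abs_le.2 ⟨hu.1, hu.2⟩
        calc 2 * π * (|t| * |u|) ≤ 2 * π * (|t| * (δ / 2)) := by gcongr
          _ = π * (|t| * δ) := by ring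
          _ ≤ π * (1 / 3) := by gcongr
          _ = π / 3 := by ring
      rw [← Real.cos_abs, ← Real.cos_pi_div_three]
      exact Real.cos_le_cos_of_nonneg_of_le_pi (abs_nonneg _) (by linarith [Real.pi_pos]) h4
  calc δ / 2 ≤ (∫ u in Icc (-(δ / 2)) (δ / 2), e (t * u)).re := by rw [h1]; exact h2
    _ ≤ _ := Complex.re_le_norm _

variable {Ω : Type*} [MeasurableSpace Ω]

/-- the window kernel -/
noncomputable def kw (δ : ℝ) (θ : Ω → ℝ) (H : Ω → ℂ) (z : ℝ × Ω) : ℂ :=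
  {z : ℝ × Ω | |z.1 - θ z.2| ≤ δ / 2}.indicator (fun z => H z.2) z

lemma kw_set_meas (δ : ℝ) {θ : Ω → ℝ} (hθ : Measurable θ) :
    MeasurableSet {z : ℝ × Ω | |z.1 - θ z.2| ≤ δ / 2} :=
  measurableSet_le ((measurable_fst.sub (hθ.comp measurable_snd)).abs) measurable_const

lemma kw_slice (δ : ℝ) (θ : Ω → ℝ) (H : Ω → ℂ) (s : ℝ) (ω : Ω) :
    kw δ θ H (s, ω) = (Icc (θ ω - δ / 2) (θ ω + δ / 2)).indicator (fun _ => H ω) s := by
  have : (s, ω) ∈ {z : ℝ × Ω | |z.1 - θ z.2| ≤ δ / 2} ↔ s ∈ Icc (θ ω - δ / 2) (θ ω + δ / 2) := by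
    simp only [mem_ofPred_eq, mem_Icc, abs_le]
    constructor <;> rintro ⟨h1, h2⟩ <;> constructor <;> linarith
  unfold kw
  by_cases h : s ∈ Icc (θ ω - δ / 2) (θ ω + δ / 2)
  · rw [indicator_of_mem h, indicator_of_mem (this.2 h)]
  · rw [indicator_of_notMem h, indicator_of_notMem (fun h' => h (this.1 h'))]

lemma kw_int {μ : Measure Ω} [SFinite μ] {δ : ℝ} (hδ : 0 < δ) {θ : Ω → ℝ} (hθ : Measurable θ)
    {H : Ω → ℂ} (hH : Integrable H μ) : Integrable (kw δ θ H) (volume.prod μ) := by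
  have hm : AEStronglyMeasurable (kw δ θ H) (volume.prod μ) :=
    (hH.aestronglyMeasurable.comp_snd).indicator (kw_set_meas δ hθ)
  refine (integrable_prod_iff' hm).2 ⟨?_, ?_⟩
  · refine Eventually.of_forall fun ω => ?_
    simp_rw [kw_slice]
    exact (integrable_indicator_iff measurableSet_Icc).2 continuousOn_const.integrableOn_Icc
  · have h1 : (fun ω => ∫ s, ‖kw δ θ H (s, ω)‖) = fun ω => δ * ‖H ω‖ := by
      funext ω
      simp_rw [kw_slice, norm_indicator_eq_indicator_norm]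
      rw [integral_indicator measurableSet_Icc, setIntegral_const, measureReal_def,
        Real.volume_Icc, ENNReal.toReal_ofReal (by linarith)]
      simp only [smul_eq_mul]; ring
    rw [h1]
    exact hH.norm.const_mul δ

/-- the integral over the window around `s` -/
noncomputable def wa (μ : Measure Ω) (δ : ℝ) (θ : Ω → ℝ) (H : Ω → ℂ) (s : ℝ) : ℂ :=
  ∫ ω, kw δ θ H (s, ω) ∂μ

lemma wa_int {μ : Measure Ω} [SFinite μ] {δ : ℝ} (hδ : 0 < δ) {θ : Ω → ℝ} (hθ : Measurable θ)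
    {H : Ω → ℂ} (hH : Integrable H μ) : Integrable (wa μ δ θ H) :=
  (kw_int hδ hθ hH).integral_prod_left

lemma kw_norm_le (δ : ℝ) (θ : Ω → ℝ) (H : Ω → ℂ) (z : ℝ × Ω) : ‖kw δ θ H z‖ ≤ ‖H z.2‖ := by
  unfold kw
  exact norm_indicator_le_norm_self _ _

lemma wa_bdd {μ : Measure Ω} {δ : ℝ} {θ : Ω → ℝ} {H : Ω → ℂ} (hH : Integrable H μ) (s : ℝ) :
    ‖wa μ δ θ H s‖ ≤ ∫ ω, ‖H ω‖ ∂μ := by
  unfold wa
  refine (norm_integral_le_integral_norm _).trans ?_
  refine integral_mono_of_nonneg (Eventually.of_forall fun _ => norm_nonneg _) hH.norm ?_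
  exact Eventually.of_forall fun ω => kw_norm_le δ θ H (s, ω)

lemma wa_memLp {μ : Measure Ω} [SFinite μ] {δ : ℝ} (hδ : 0 < δ) {θ : Ω → ℝ} (hθ : Measurable θ)
    {H : Ω → ℂ} (hH : Integrable H μ) : MemLp (wa μ δ θ H) 2 := by
  have h1 := wa_int hδ hθ hH
  rw [memLp_two_iff_integrable_sq_norm h1.aestronglyMeasurable]
  have h2 : (fun x => ‖wa μ δ θ H x‖ ^ 2) = fun x => ‖wa μ δ θ H x‖ * ‖wa μ δ θ H x‖ := by
    funext x; ring
  rw [h2]
  refine h1.norm.bdd_mul (c := ∫ ω, ‖H ω‖ ∂μ) h1.norm.aestronglyMeasurable ?_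
  refine Eventually.of_forall fun s => ?_
  rw [norm_norm]; exact wa_bdd hH s

/-- Fourier transform of the window averages -/
lemma wa_fourier {μ : Measure Ω} [SFinite μ] {δ : ℝ} (hδ : 0 < δ) {θ : Ω → ℝ} (hθ : Measurable θ)
    {H : Ω → ℂ} (hH : Integrable H μ) (t : ℝ) :
    𝓕 (wa μ δ θ H) (-t) =
      (∫ u in Icc (-(δ / 2)) (δ / 2), e (t * u)) * ∫ ω, e (t * θ ω) * H ω ∂μ := by
  have hE : ∀ s : ℝ, ((𝐞 (-(s * (-t))) : Circle) : ℂ) = e (t * s) := by
    intro s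
    rw [Real.fourierChar_apply, e]; congr 1; push_cast; ring
  have h0 : 𝓕 (wa μ δ θ H) (-t) = ∫ s, e (t * s) * wa μ δ θ H s := by
    rw [Real.fourier_eq']
    refine integral_congr_ae (Eventually.of_forall fun s => ?_)
    simp only [RCLike.inner_apply, conj_trivial, smul_eq_mul]
    congr 1
    rw [e]; congr 1; push_cast; ring
  have hK := kw_int hδ hθ hH
  have hKe : Integrable (fun z : ℝ × Ω => e (t * z.1) * kw δ θ H z) (volume.prod μ) := by
    refine hK.bdd_mul (c := 1) ?_ (Eventually.of_forall fun z => (e_norm _).le)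
    exact (e_cont.comp (by fun_prop : Continuous fun s : ℝ => t * s)).measurable.comp
      measurable_fst |>.aestronglyMeasurable
  rw [h0]
  calc ∫ s, e (t * s) * wa μ δ θ H s
      = ∫ s, ∫ ω, e (t * s) * kw δ θ H (s, ω) ∂μ := by
        refine integral_congr_ae (Eventually.of_forall fun s => ?_)
        simp only [wa]
        rw [← integral_const_mul]
    _ = ∫ ω, (∫ s, e (t * s) * kw δ θ H (s, ω)) ∂μ := integral_integral_swap hKe
    _ = ∫ ω, (∫ u in Icc (-(δ / 2)) (δ / 2), e (t * u)) * (e (t * θ ω) * H ω) ∂μ := by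
        refine integral_congr_ae (Eventually.of_forall fun ω => ?_)
        simp only
        have h1 : (fun s => e (t * s) * kw δ θ H (s, ω)) = fun s =>
            (Icc (θ ω - δ / 2) (θ ω + δ / 2)).indicator (fun s => e (t * s) * H ω) s := by
          funext s
          rw [kw_slice]
          by_cases h : s ∈ Icc (θ ω - δ / 2) (θ ω + δ / 2)
          · rw [indicator_of_mem h, indicator_of_mem h]
          · rw [indicator_of_notMem h, indicator_of_notMem h, mul_zero]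
        rw [h1, ← integral_add_right_eq_self _ (θ ω)]
        have h2 : (fun s => (Icc (θ ω - δ / 2) (θ ω + δ / 2)).indicator
            (fun s => e (t * s) * H ω) (s + θ ω)) = fun s =>
            (Icc (-(δ / 2)) (δ / 2)).indicator (fun s => e (t * s)) s * (e (t * θ ω) * H ω) := by
          funext s
          have hiff : s + θ ω ∈ Icc (θ ω - δ / 2) (θ ω + δ / 2) ↔ s ∈ Icc (-(δ / 2)) (δ / 2) := by
            simp only [mem_Icc]
            constructor <;> rintro ⟨h1, h2⟩ <;> constructor <;> linarith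
          by_cases h : s ∈ Icc (-(δ / 2)) (δ / 2)
          · rw [indicator_of_mem h, indicator_of_mem (hiff.2 h), mul_add, e_add]; ring
          · rw [indicator_of_notMem h, indicator_of_notMem (fun h' => h (hiff.1 h')), zero_mul]
        rw [h2, integral_mul_const, integral_indicator measurableSet_Icc]
    _ = _ := by rw [integral_const_mul]

/-- **Gallagher's lemma** for exponential integrals -/
theorem gall {μ : Measure Ω} [SFinite μ] {δ T : ℝ} (hδ : 0 < δ) (hT : T * δ ≤ 1 / 3)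
    {θ : Ω → ℝ} (hθ : Measurable θ) {H : Ω → ℂ} (hH : Integrable H μ) :
    ∫⁻ t in Icc (-T) T, ‖∫ ω, e (t * θ ω) * H ω ∂μ‖ₑ ^ 2 ≤
      ENNReal.ofReal (4 / δ ^ 2) *
        ∫⁻ s : ℝ, ‖∫ ω, {ω | |s - θ ω| ≤ δ / 2}.indicator H ω ∂μ‖ₑ ^ 2 := by
  have h1 : ∀ t ∈ Icc (-T) T, ‖∫ ω, e (t * θ ω) * H ω ∂μ‖ₑ ^ 2 ≤
      ENNReal.ofReal (4 / δ ^ 2) * ‖𝓕 (wa μ δ θ H) (-t)‖ₑ ^ 2 := by
    intro t ht
    have ht' : |t| * δ ≤ 1 / 3 := by
      refine le_trans ?_ hT
      gcongr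
      exact abs_le.2 ⟨ht.1, ht.2⟩
    have h2 := win hδ ht'
    rw [wa_fourier hδ hθ hH, ← ofReal_norm, ← ofReal_norm, norm_mul,
      ← ENNReal.ofReal_pow (norm_nonneg _), ← ENNReal.ofReal_pow (by positivity),
      ← ENNReal.ofReal_mul (by positivity)]
    refine ENNReal.ofReal_le_ofReal ?_
    rw [mul_pow]
    set A := ‖∫ u in Icc (-(δ / 2)) (δ / 2), e (t * u)‖
    set B := ‖∫ ω, e (t * θ ω) * H ω ∂μ‖
    have h3 : (δ / 2) ^ 2 ≤ A ^ 2 := by gcongr
    have h4 : 1 ≤ 4 / δ ^ 2 * A ^ 2 := by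
      rw [div_mul_eq_mul_div, le_div_iff₀ (by positivity)]
      nlinarith
    calc B ^ 2 = 1 * B ^ 2 := (one_mul _).symm
      _ ≤ (4 / δ ^ 2 * A ^ 2) * B ^ 2 := by gcongr
      _ = 4 / δ ^ 2 * (A ^ 2 * B ^ 2) := by ring
  calc ∫⁻ t in Icc (-T) T, ‖∫ ω, e (t * θ ω) * H ω ∂μ‖ₑ ^ 2
      ≤ ∫⁻ t in Icc (-T) T, ENNReal.ofReal (4 / δ ^ 2) * ‖𝓕 (wa μ δ θ H) (-t)‖ₑ ^ 2 :=
        setLIntegral_mono' measurableSet_Icc h1
    _ ≤ ∫⁻ t, ENNReal.ofReal (4 / δ ^ 2) * ‖𝓕 (wa μ δ θ H) (-t)‖ₑ ^ 2 :=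
        setLIntegral_le_lintegral _ _
    _ = ENNReal.ofReal (4 / δ ^ 2) * ∫⁻ t, ‖𝓕 (wa μ δ θ H) (-t)‖ₑ ^ 2 :=
        lintegral_const_mul' _ _ ENNReal.ofReal_ne_top
    _ = ENNReal.ofReal (4 / δ ^ 2) * ∫⁻ t, ‖𝓕 (wa μ δ θ H) t‖ₑ ^ 2 := by
        congr 1
        exact lintegral_neg_eq_self (fun t => ‖𝓕 (wa μ δ θ H) t‖ₑ ^ 2)
    _ = ENNReal.ofReal (4 / δ ^ 2) * ∫⁻ s, ‖wa μ δ θ H s‖ₑ ^ 2 := by
        rw [H153R4.plancherel _ (wa_int hδ hθ hH) (wa_memLp hδ hθ hH)]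
    _ = _ := by
        congr 1

end Pool.Agent.U37.Sch
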