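import Mathlib
import Pool.Agent.U37.Sch.A
import Pool.Agent.Helper93.Sph.F

/-!
Local smoothing for dispersive evolutions: the mean square over `|t| ≤ T` and over a ball of radius
`ρ` of the part of `exp(2 π i t φ(|D|)) f` with frequencies in a shell on which `φ` has slope at
least `l` is `O(ρ / l)` times the square of the norm of that part.
-/

set_option autoImplicit false
set_option linter.unusedSectionVars false

open MeasureTheory Real Set Filter Topology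
open scoped ENNReal RealInnerProductSpace

namespace Pool.Agent.U37.Sch

open Pool.Agent.Helper93.Sph

/-- the Fourier transform of `exp(2 π i t φ(|D|)) f` -/
noncomputable def evo {n : ℕ} (φ : ℝ → ℝ) (t : ℝ) (G : En n → ℂ) : En n → ℂ :=
  fun ξ => e (t * φ ‖ξ‖) * G ξ

lemma evo_norm {n : ℕ} (φ : ℝ → ℝ) (t : ℝ) (G : En n → ℂ) (ξ : En n) : ‖evo φ t G ξ‖ = ‖G ξ‖ := by
  rw [evo, norm_mul, e_norm, one_mul]

lemma evo_enorm {n : ℕ} (φ : ℝ → ℝ) (t : ℝ) (G : En n → ℂ) (ξ : En n) :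
    ‖evo φ t G ξ‖ₑ = ‖G ξ‖ₑ := by
  rw [← ofReal_norm, evo_norm, ofReal_norm]

lemma evo_ind {n : ℕ} (φ : ℝ → ℝ) (t : ℝ) (G : En n → ℂ) (s : Set (En n)) :
    s.indicator (evo φ t G) = evo φ t (s.indicator G) := by
  funext ξ
  by_cases h : ξ ∈ s
  · rw [indicator_of_mem h, evo, evo, indicator_of_mem h]
  · rw [indicator_of_notMem h, evo, indicator_of_notMem h, mul_zero]

lemma evo_meas {n : ℕ} {φ : ℝ → ℝ} (hφ : Measurable fun ξ : En n => φ ‖ξ‖) (t : ℝ) {G : En n → ℂ}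
    (hG : Measurable G) : Measurable (evo φ t G) :=
  (e_cont.measurable.comp (hφ.const_mul t)).mul hG

lemma evo_memLp {n : ℕ} {φ : ℝ → ℝ} (hφ : Measurable fun ξ : En n => φ ‖ξ‖) (t : ℝ)
    {G : En n → ℂ} (hGm : Measurable G) (hG : MemLp G 2) : MemLp (evo φ t G) 2 := by
  refine (memLp_congr_norm (evo_meas hφ t hGm).aestronglyMeasurable hG.aestronglyMeasurable ?_).2 hG
  exact Eventually.of_forall fun ξ => evo_norm φ t G ξ

/-- local estimate for functions with Fourier transform supported in a thin shell -/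
lemma fi_shell {m : ℕ} {G : En (m + 1) → ℂ} (hG : MemLp G 2) {R R' : ℝ} (h0 : 0 ≤ R) (h : R ≤ R')
    (hs : ∀ ξ, ξ ∉ shell (m + 1) R R' → G ξ = 0) (x₀ : En (m + 1)) {ρ : ℝ} (hρ : 0 < ρ) :
    ∫⁻ x in Metric.closedBall x₀ ρ, ‖Fi G x‖ₑ ^ 2 ≤
      ENNReal.ofReal (10 * (m + 1) * √(m + 1) * ρ * (R' - R)) * ∫⁻ ξ, ‖G ξ‖ₑ ^ 2 := by
  have hE : (shell (m + 1) R R').indicator G = G := by
    funext ξ
    by_cases hξ : ξ ∈ shell (m + 1) R R'
    · rw [indicator_of_mem hξ]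
    · rw [indicator_of_notMem hξ, hs ξ hξ]
  have h1 := incr hG h0 h x₀ hρ
  simp_rw [ps_sub hG h0 h, hE] at h1
  exact h1.trans (by gcongr; exact Measure.restrict_le_self)

lemma fi_cont2 {n : ℕ} {φ : ℝ → ℝ} (hφ : Measurable fun ξ : En n => φ ‖ξ‖) {F : En n → ℂ}
    (hFm : Measurable F) (hF : Integrable F) :
    Continuous (fun z : ℝ × En n => Fi (evo φ z.1 F) z.2) := by
  unfold Fi
  refine continuous_of_dominated (bound := fun ξ => ‖F ξ‖) ?_ ?_ hF.norm ?_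
  · intro z
    refine Measurable.aestronglyMeasurable ?_
    exact ((ek_cont.comp (by fun_prop : Continuous fun ξ : En n => (z.2, ξ))).measurable).mul
      (evo_meas hφ z.1 hFm)
  · intro z
    refine Eventually.of_forall fun ξ => ?_
    rw [norm_mul, ek_norm, one_mul, evo_norm]
  · refine Eventually.of_forall fun ξ => ?_
    have h1 : Continuous fun z : ℝ × En n => ek z.2 ξ :=
      ek_cont.comp (by fun_prop : Continuous fun z : ℝ × En n => (z.2, ξ))
    have h2 : Continuous fun z : ℝ × En n => e (z.1 * φ ‖ξ‖) :=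
      e_cont.comp (by fun_prop)
    exact h1.mul (h2.mul continuous_const)

/-- **local smoothing** -/
theorem smooth_est {m : ℕ} {φ : ℝ → ℝ} (hφ : Measurable fun ξ : En (m + 1) => φ ‖ξ‖)
    {r r' l ρ T : ℝ} (hr : 0 ≤ r) (hl : 0 < l)
    (hs : ∀ a b, r ≤ a → a ≤ b → l * (b - a) ≤ φ b - φ a) (hρ : 0 < ρ) (hT : 0 < T)
    {G : En (m + 1) → ℂ} (hGm : Measurable G) (hG : MemLp G 2) (x₀ : En (m + 1)) :
    ∫⁻ t in Icc (-T) T, ∫⁻ x in Metric.closedBall x₀ ρ,
        ‖Fi ((shell (m + 1) r r').indicator (evo φ t G)) x‖ₑ ^ 2 ≤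
      ENNReal.ofReal (120 * (m + 1) * √(m + 1) * ρ / l) *
        ∫⁻ ξ in shell (m + 1) r r', ‖G ξ‖ₑ ^ 2 := by
  set S := shell (m + 1) r r' with hS
  have hSm : MeasurableSet S := shell_meas _ _ _
  set F := S.indicator G with hF
  have hFm : Measurable F := hGm.indicator hSm
  have hFi : Integrable F := ind_int hG _ _
  have hF2 : MemLp F 2 := hG.indicator hSm
  simp_rw [evo_ind]
  rw [← hF]
  set δ : ℝ := 1 / (3 * T) with hδ
  have hδ0 : 0 < δ := by positivity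
  have hTδ : T * δ ≤ 1 / 3 := by rw [hδ]; apply le_of_eq; field_simp
  -- swap the integrals
  have hsw : ∫⁻ t in Icc (-T) T, ∫⁻ x in Metric.closedBall x₀ ρ, ‖Fi (evo φ t F) x‖ₑ ^ 2 =
      ∫⁻ x in Metric.closedBall x₀ ρ, ∫⁻ t in Icc (-T) T, ‖Fi (evo φ t F) x‖ₑ ^ 2 := by
    refine lintegral_lintegral_swap ?_
    exact ((fi_cont2 hφ hFm hFi).measurable.enorm.pow_const 2).aemeasurable
  rw [hsw]
  have hW : ∀ s : ℝ, MeasurableSet {ξ : En (m + 1) | |s - φ ‖ξ‖| ≤ δ / 2} := fun s =>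
    measurableSet_le ((measurable_const.sub hφ).abs) measurable_const
  -- Gallagher's lemma
  have hg : ∀ x : En (m + 1), ∫⁻ t in Icc (-T) T, ‖Fi (evo φ t F) x‖ₑ ^ 2 ≤
      ENNReal.ofReal (4 / δ ^ 2) *
        ∫⁻ s : ℝ, ‖Fi ({ξ : En (m + 1) | |s - φ ‖ξ‖| ≤ δ / 2}.indicator F) x‖ₑ ^ 2 := by
    intro x
    have h1 := gall (μ := (volume : Measure (En (m + 1)))) hδ0 hTδ hφ
      (H := fun ξ => ek x ξ * F ξ) (ek_int hFi x)
    refine le_trans (le_of_eq ?_) (h1.trans (le_of_eq ?_))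
    · refine lintegral_congr fun t => ?_
      congr 2
      unfold Fi evo
      refine integral_congr_ae (Eventually.of_forall fun ξ => ?_)
      simp only; ring
    · congr 1
      refine lintegral_congr fun s => ?_
      congr 2
      unfold Fi
      refine integral_congr_ae (Eventually.of_forall fun ξ => ?_)
      simp only
      by_cases hξ : ξ ∈ {ξ : En (m + 1) | |s - φ ‖ξ‖| ≤ δ / 2}
      · rw [indicator_of_mem hξ, indicator_of_mem hξ]
      · rw [indicator_of_notMem hξ, indicator_of_notMem hξ, mul_zero]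
  -- measurability in `(x, s)`
  have hmeas : Measurable (fun z : En (m + 1) × ℝ =>
      ‖Fi ({ξ : En (m + 1) | |z.2 - φ ‖ξ‖| ≤ δ / 2}.indicator F) z.1‖ₑ ^ 2) := by
    refine (StronglyMeasurable.measurable ?_).enorm.pow_const 2
    unfold Fi
    refine StronglyMeasurable.integral_prod_right
      (f := fun (z : En (m + 1) × ℝ) (ξ : En (m + 1)) =>
        ek z.1 ξ * {ξ : En (m + 1) | |z.2 - φ ‖ξ‖| ≤ δ / 2}.indicator F ξ) ?_
    refine Measurable.stronglyMeasurable ?_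
    have e1 : Measurable (fun p : (En (m + 1) × ℝ) × En (m + 1) => ek p.1.1 p.2) :=
      (ek_cont.comp (by fun_prop : Continuous fun p : (En (m + 1) × ℝ) × En (m + 1) =>
        (p.1.1, p.2))).measurable
    have e2 : Measurable (fun p : (En (m + 1) × ℝ) × En (m + 1) =>
        {ξ : En (m + 1) | |p.1.2 - φ ‖ξ‖| ≤ δ / 2}.indicator F p.2) := by
      have hset : MeasurableSet {p : (En (m + 1) × ℝ) × En (m + 1) |
          |p.1.2 - φ ‖p.2‖| ≤ δ / 2} :=
        measurableSet_le ((measurable_fst.snd.sub (hφ.comp measurable_snd)).abs) measurable_const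
      have := (hFm.comp (measurable_snd (α := En (m + 1) × ℝ) (β := En (m + 1)))).indicator hset
      convert this using 1
      funext p
      by_cases hp : p ∈ {p : (En (m + 1) × ℝ) × En (m + 1) | |p.1.2 - φ ‖p.2‖| ≤ δ / 2}
      · have hp' : p.2 ∈ {ξ : En (m + 1) | |p.1.2 - φ ‖ξ‖| ≤ δ / 2} := hp
        rw [indicator_of_mem hp, indicator_of_mem hp', Function.comp]
      · have hp' : p.2 ∉ {ξ : En (m + 1) | |p.1.2 - φ ‖ξ‖| ≤ δ / 2} := hp
        rw [indicator_of_notMem hp, indicator_of_notMem hp']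
    exact e1.mul e2
  -- for each window
  have hwin : ∀ s : ℝ, ∫⁻ x in Metric.closedBall x₀ ρ,
      ‖Fi ({ξ : En (m + 1) | |s - φ ‖ξ‖| ≤ δ / 2}.indicator F) x‖ₑ ^ 2 ≤
      ENNReal.ofReal (10 * (m + 1) * √(m + 1) * ρ * (3 * δ / l)) *
        ∫⁻ ξ, {ξ : En (m + 1) | |s - φ ‖ξ‖| ≤ δ / 2}.indicator (fun ξ => ‖F ξ‖ₑ ^ 2) ξ := by
    intro s
    set W := {ξ : En (m + 1) | |s - φ ‖ξ‖| ≤ δ / 2} with hWd
    have e1 : ∫⁻ ξ, W.indicator (fun ξ => ‖F ξ‖ₑ ^ 2) ξ = ∫⁻ ξ, ‖W.indicator F ξ‖ₑ ^ 2 := by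
      refine lintegral_congr fun ξ => ?_
      by_cases hξ : ξ ∈ W
      · rw [indicator_of_mem hξ, indicator_of_mem hξ]
      · rw [indicator_of_notMem hξ, indicator_of_notMem hξ]; simp
    rw [e1]
    by_cases hne : ∃ ξ₀, ξ₀ ∈ W ∧ ξ₀ ∈ S
    · obtain ⟨ξ₀, hξW, hξS⟩ := hne
      set a := max 0 (‖ξ₀‖ - δ / l) with ha
      have hdl : 0 < δ / l := by positivity
      have h3 := fi_shell (G := W.indicator F) (hF2.indicator (hW s)) (R := a)
        (R' := a + 3 * δ / l) (le_max_left _ _) (by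
          have : 3 * δ / l = 3 * (δ / l) := by ring
          rw [this]; linarith) ?_ x₀ hρ
      · refine h3.trans (le_of_eq ?_)
        congr 2; ring
      · intro ξ hξ
        by_contra hcon
        have hξW' : ξ ∈ W := by
          by_contra h'
          exact hcon (indicator_of_notMem h' _)
        have hξS' : ξ ∈ S := by
          by_contra h'
          rw [indicator_of_mem hξW', hF, indicator_of_notMem h'] at hcon
          exact hcon rfl
        have h4 : |φ ‖ξ‖ - φ ‖ξ₀‖| ≤ δ := by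
          have a1 : |s - φ ‖ξ‖| ≤ δ / 2 := hξW'
          have a2 : |s - φ ‖ξ₀‖| ≤ δ / 2 := hξW
          rw [abs_le] at a1 a2 ⊢
          constructor <;> linarith [a1.1, a1.2, a2.1, a2.2]
        have h5 : |‖ξ‖ - ‖ξ₀‖| ≤ δ / l := by
          rw [le_div_iff₀ hl]
          rcases le_total ‖ξ‖ ‖ξ₀‖ with h6 | h6
          · have h7 := hs ‖ξ‖ ‖ξ₀‖ hξS'.1 h6
            rw [abs_sub_comm, abs_of_nonneg (by linarith)]
            have h8 := (abs_le.1 h4).1
            nlinarith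
          · have h7 := hs ‖ξ₀‖ ‖ξ‖ hξS.1 h6
            rw [abs_of_nonneg (by linarith)]
            have h8 := (abs_le.1 h4).2
            nlinarith
        rw [abs_le] at h5
        apply hξ
        constructor
        · rw [ha]; exact max_le (norm_nonneg _) (by linarith [h5.1])
        · have : 3 * δ / l = 3 * (δ / l) := by ring
          have h9 : ‖ξ₀‖ - δ / l ≤ a := le_max_right _ _
          rw [this]; linarith [h5.2]
    · have hz : W.indicator F = 0 := by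
        funext ξ
        by_cases hξ : ξ ∈ W
        · have : ξ ∉ S := fun h' => hne ⟨ξ, hξ, h'⟩
          rw [indicator_of_mem hξ, hF, indicator_of_notMem this]; rfl
        · rw [indicator_of_notMem hξ]; rfl
      rw [hz]
      simp [Fi]
  -- the integral over the windows
  have hint : ∫⁻ s : ℝ, ∫⁻ ξ, {ξ : En (m + 1) | |s - φ ‖ξ‖| ≤ δ / 2}.indicator
      (fun ξ => ‖F ξ‖ₑ ^ 2) ξ = ENNReal.ofReal δ * ∫⁻ ξ, ‖F ξ‖ₑ ^ 2 := by
    rw [lintegral_lintegral_swap]
    · have h6 : ∀ ξ : En (m + 1), ∫⁻ s : ℝ, {ξ : En (m + 1) | |s - φ ‖ξ‖| ≤ δ / 2}.indicator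
          (fun ξ => ‖F ξ‖ₑ ^ 2) ξ = ENNReal.ofReal δ * ‖F ξ‖ₑ ^ 2 := by
        intro ξ
        have h7 : ∀ s : ℝ, {ξ : En (m + 1) | |s - φ ‖ξ‖| ≤ δ / 2}.indicator
            (fun ξ => ‖F ξ‖ₑ ^ 2) ξ =
            (Icc (φ ‖ξ‖ - δ / 2) (φ ‖ξ‖ + δ / 2)).indicator (fun _ => ‖F ξ‖ₑ ^ 2) s := by
          intro s
          have hiff : ξ ∈ {ξ : En (m + 1) | |s - φ ‖ξ‖| ≤ δ / 2} ↔
              s ∈ Icc (φ ‖ξ‖ - δ / 2) (φ ‖ξ‖ + δ / 2) := by
            simp only [mem_ofPred_eq, mem_Icc, abs_le]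
            constructor <;> rintro ⟨h1, h2⟩ <;> constructor <;> linarith
          by_cases h : s ∈ Icc (φ ‖ξ‖ - δ / 2) (φ ‖ξ‖ + δ / 2)
          · rw [indicator_of_mem h, indicator_of_mem (hiff.2 h)]
          · rw [indicator_of_notMem h, indicator_of_notMem (fun h' => h (hiff.1 h'))]
        simp_rw [h7]
        rw [lintegral_indicator measurableSet_Icc, lintegral_const, Measure.restrict_apply_univ,
          Real.volume_Icc, mul_comm]
        congr 2; ring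
      simp_rw [h6]
      exact lintegral_const_mul' _ _ ENNReal.ofReal_ne_top
    · refine Measurable.aemeasurable ?_
      have hset : MeasurableSet {p : ℝ × En (m + 1) | |p.1 - φ ‖p.2‖| ≤ δ / 2} :=
        measurableSet_le ((measurable_fst.sub (hφ.comp measurable_snd)).abs) measurable_const
      have := ((hFm.enorm.pow_const 2).comp (measurable_snd (α := ℝ) (β := En (m + 1)))).indicator
        hset
      convert this using 1
      funext p
      by_cases hp : p ∈ {p : ℝ × En (m + 1) | |p.1 - φ ‖p.2‖| ≤ δ / 2}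
      · have hp' : p.2 ∈ {ξ : En (m + 1) | |p.1 - φ ‖ξ‖| ≤ δ / 2} := hp
        rw [indicator_of_mem hp, Function.uncurry, indicator_of_mem hp', Function.comp]
      · have hp' : p.2 ∉ {ξ : En (m + 1) | |p.1 - φ ‖ξ‖| ≤ δ / 2} := hp
        rw [indicator_of_notMem hp, Function.uncurry, indicator_of_notMem hp']
  have hFS : ∫⁻ ξ, ‖F ξ‖ₑ ^ 2 = ∫⁻ ξ in S, ‖G ξ‖ₑ ^ 2 := by
    rw [← lintegral_indicator hSm]
    refine lintegral_congr fun ξ => ?_
    by_cases hξ : ξ ∈ S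
    · rw [hF, indicator_of_mem hξ, indicator_of_mem hξ]
    · rw [hF, indicator_of_notMem hξ, indicator_of_notMem hξ]; simp
  calc ∫⁻ x in Metric.closedBall x₀ ρ, ∫⁻ t in Icc (-T) T, ‖Fi (evo φ t F) x‖ₑ ^ 2
      ≤ ∫⁻ x in Metric.closedBall x₀ ρ, ENNReal.ofReal (4 / δ ^ 2) *
        ∫⁻ s : ℝ, ‖Fi ({ξ : En (m + 1) | |s - φ ‖ξ‖| ≤ δ / 2}.indicator F) x‖ₑ ^ 2 :=
        lintegral_mono fun x => hg x
    _ = ENNReal.ofReal (4 / δ ^ 2) * ∫⁻ x in Metric.closedBall x₀ ρ,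
        ∫⁻ s : ℝ, ‖Fi ({ξ : En (m + 1) | |s - φ ‖ξ‖| ≤ δ / 2}.indicator F) x‖ₑ ^ 2 :=
        lintegral_const_mul' _ _ ENNReal.ofReal_ne_top
    _ = ENNReal.ofReal (4 / δ ^ 2) * ∫⁻ s : ℝ, ∫⁻ x in Metric.closedBall x₀ ρ,
        ‖Fi ({ξ : En (m + 1) | |s - φ ‖ξ‖| ≤ δ / 2}.indicator F) x‖ₑ ^ 2 := by
        rw [lintegral_lintegral_swap]
        exact hmeas.aemeasurable
    _ ≤ ENNReal.ofReal (4 / δ ^ 2) * ∫⁻ s : ℝ,
        ENNReal.ofReal (10 * (m + 1) * √(m + 1) * ρ * (3 * δ / l)) *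
        ∫⁻ ξ, {ξ : En (m + 1) | |s - φ ‖ξ‖| ≤ δ / 2}.indicator (fun ξ => ‖F ξ‖ₑ ^ 2) ξ :=
        mul_le_mul_right (lintegral_mono fun s => hwin s) _
    _ = ENNReal.ofReal (4 / δ ^ 2) *
        (ENNReal.ofReal (10 * (m + 1) * √(m + 1) * ρ * (3 * δ / l)) *
        (ENNReal.ofReal δ * ∫⁻ ξ, ‖F ξ‖ₑ ^ 2)) := by
        rw [lintegral_const_mul' _ _ ENNReal.ofReal_ne_top, hint]
    _ = ENNReal.ofReal (120 * (m + 1) * √(m + 1) * ρ / l) * ∫⁻ ξ in S, ‖G ξ‖ₑ ^ 2 := by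
        rw [hFS, ← mul_assoc, ← mul_assoc, ← ENNReal.ofReal_mul (by positivity),
          ← ENNReal.ofReal_mul (by positivity)]
        congr 2
        field_simp
        ring

end Pool.Agent.U37.Sch
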