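import Mathlib
import Pool.Agent.U37.Sch.B
import Pool.Agent.Helper93.Sph.W2

/-!
Mean squares of the increments of the ball partial sums of dispersive evolutions.
-/

set_option autoImplicit false
set_option linter.unusedSectionVars false

open MeasureTheory Real Set Filter Topology
open scoped ENNReal RealInnerProductSpace

namespace Pool.Agent.U37.Sch

open Pool.Agent.Helper93.Sph

/-- the measure on `[-T, T] × B(x₀, ρ)` -/
noncomputable def mu (T ρ : ℝ) {n : ℕ} (x₀ : En n) : Measure (ℝ × En n) :=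
  (volume.restrict (Icc (-T) T)).prod (volume.restrict (Metric.closedBall x₀ ρ))

/-- the path `R ↦ S_R u(t, x)` -/
noncomputable def pth {n : ℕ} (φ : ℝ → ℝ) (G : En n → ℂ) (z : ℝ × En n) (R : ℝ) : ℂ :=
  ps (evo φ z.1 G) R z.2

variable {m : ℕ} {φ : ℝ → ℝ} {G : En (m + 1) → ℂ}

lemma pth_cont (hφ : Measurable fun ξ : En (m + 1) => φ ‖ξ‖) (hGm : Measurable G)
    (hG : MemLp G 2) (z : ℝ × En (m + 1)) : Continuous (pth φ G z) :=
  ps_cont_R (evo_memLp hφ z.1 hGm hG) z.2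

lemma pth_meas (hφ : Measurable fun ξ : En (m + 1) => φ ‖ξ‖) (hGm : Measurable G)
    (hG : MemLp G 2) (R : ℝ) : Measurable (fun z => pth φ G z R) := by
  unfold pth
  simp_rw [ps_eq, evo_ind]
  exact (fi_cont2 hφ (hGm.indicator (shell_meas _ _ _)) (ind_int hG _ _)).measurable

/-- the slope condition -/
def Slope (c ε : ℝ) (φ : ℝ → ℝ) : Prop :=
  ∀ a b, 1 ≤ a → a ≤ b → c * (1 + a) ^ ε * (b - a) ≤ φ b - φ a

/-- the constant -/
noncomputable def Bc (m : ℕ) (ρ T c ε : ℝ) : ℝ :=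
  120 * (m + 1) * √(m + 1) * ρ * (1 / c + 2 ^ ε * T)

lemma Bc_nonneg (m : ℕ) {ρ T c : ℝ} (ε : ℝ) (hρ : 0 < ρ) (hT : 0 < T) (hc : 0 < c) :
    0 ≤ Bc m ρ T c ε := by
  unfold Bc; positivity

/-- mean squares of increments -/
lemma inc_est {ρ T c ε : ℝ} (hρ : 0 < ρ) (hT : 0 < T) (hc : 0 < c) (hε : 0 ≤ ε)
    (hφ : Measurable fun ξ : En (m + 1) => φ ‖ξ‖)
    (hs : Slope c ε φ) (hGm : Measurable G) (hG : MemLp G 2) (x₀ : En (m + 1)) {R R' : ℝ}
    (hR : 0 ≤ R) (hRR : R ≤ R') (hcase : 1 ≤ R ∨ R' ≤ 1) :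
    ∫⁻ z, ‖pth φ G z R' - pth φ G z R‖ₑ ^ 2 ∂(mu T ρ x₀) ≤
      ENNReal.ofReal (Bc m ρ T c ε * min ((1 + R) ^ (-ε)) (R' - R)) *
        ∫⁻ ξ in shell (m + 1) R R', ‖G ξ‖ₑ ^ 2 := by
  have hmz : Measurable (fun z : ℝ × En (m + 1) => ‖pth φ G z R' - pth φ G z R‖ₑ ^ 2) :=
    ((pth_meas hφ hGm hG R').sub (pth_meas hφ hGm hG R)).enorm.pow_const 2
  have hprod : ∫⁻ z, ‖pth φ G z R' - pth φ G z R‖ₑ ^ 2 ∂(mu T ρ x₀) =
      ∫⁻ t in Icc (-T) T, ∫⁻ x in Metric.closedBall x₀ ρ,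
        ‖Fi ((shell (m + 1) R R').indicator (evo φ t G)) x‖ₑ ^ 2 := by
    rw [mu, lintegral_prod _ hmz.aemeasurable]
    refine lintegral_congr fun t => lintegral_congr fun x => ?_
    simp only [pth]
    rw [ps_sub (evo_memLp hφ t hGm hG) hR hRR]
  have hpos : 0 < (1 + R) ^ ε := by positivity
  have h2ε : (1 : ℝ) ≤ 2 ^ ε := Real.one_le_rpow (by norm_num) hε
  by_cases hA : 1 ≤ R ∧ (1 + R) ^ (-ε) ≤ R' - R
  · obtain ⟨hR1, h⟩ := hA
    rw [min_eq_left h, hprod]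
    have h1 := smooth_est (m := m) hφ (r := R) (r' := R') (l := c * (1 + R) ^ ε) hR (by positivity)
      (by
        intro a b ha hab
        refine le_trans ?_ (hs a b (hR1.trans ha) hab)
        have : 0 ≤ b - a := by linarith
        gcongr) hρ hT hGm hG x₀
    refine h1.trans ?_
    gcongr
    rw [Bc, Real.rpow_neg (by linarith)]
    have e1 : 120 * ((m : ℝ) + 1) * √(m + 1) * ρ / (c * (1 + R) ^ ε) =
        120 * (m + 1) * √(m + 1) * ρ * (1 / c) * ((1 + R) ^ ε)⁻¹ := by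
      field_simp
    rw [e1]
    have h7 : 1 / c ≤ 1 / c + 2 ^ ε * T := by
      have : 0 < 2 ^ ε * T := by positivity
      linarith
    exact mul_le_mul_of_nonneg_right (mul_le_mul_of_nonneg_left h7 (by positivity))
      (by positivity)
  · have hmin : R' - R ≤ 2 ^ ε * min ((1 + R) ^ (-ε)) (R' - R) := by
      have h0 : 0 ≤ R' - R := by linarith
      rcases hcase with h1R | hR1
      · have h : R' - R ≤ (1 + R) ^ (-ε) := by
          by_contra hcon
          exact hA ⟨h1R, (not_le.1 hcon).le⟩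
        rw [min_eq_right h]
        nlinarith
      · rcases le_total ((1 + R) ^ (-ε)) (R' - R) with h | h
        · rw [min_eq_left h]
          have e3 : (2 : ℝ) ^ (-ε) ≤ (1 + R) ^ (-ε) :=
            Real.rpow_le_rpow_of_nonpos (by linarith) (by linarith) (by linarith)
          have e4 : (2 : ℝ) ^ ε * 2 ^ (-ε) = 1 := by
            rw [← Real.rpow_add (by norm_num)]; simp
          calc R' - R ≤ 1 := by linarith
            _ = (2 : ℝ) ^ ε * 2 ^ (-ε) := e4.symm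
            _ ≤ _ := by gcongr
        · rw [min_eq_right h]
          nlinarith
    rw [mu, lintegral_prod _ hmz.aemeasurable]
    have h2 : ∀ t : ℝ, ∫⁻ x in Metric.closedBall x₀ ρ,
        ‖pth φ G (t, x) R' - pth φ G (t, x) R‖ₑ ^ 2 ≤
        ENNReal.ofReal (10 * (m + 1) * √(m + 1) * ρ * (R' - R)) *
          ∫⁻ ξ in shell (m + 1) R R', ‖G ξ‖ₑ ^ 2 := by
      intro t
      have h3 := incr (evo_memLp hφ t hGm hG) hR hRR x₀ hρ
      refine h3.trans (le_of_eq ?_)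
      congr 1
      refine lintegral_congr fun ξ => ?_
      rw [evo_enorm]
    calc ∫⁻ t in Icc (-T) T, ∫⁻ x in Metric.closedBall x₀ ρ,
          ‖pth φ G (t, x) R' - pth φ G (t, x) R‖ₑ ^ 2
        ≤ ∫⁻ t in Icc (-T) T, ENNReal.ofReal (10 * (m + 1) * √(m + 1) * ρ * (R' - R)) *
          ∫⁻ ξ in shell (m + 1) R R', ‖G ξ‖ₑ ^ 2 := lintegral_mono fun t => h2 t
      _ = (ENNReal.ofReal (10 * (m + 1) * √(m + 1) * ρ * (R' - R)) *
          ∫⁻ ξ in shell (m + 1) R R', ‖G ξ‖ₑ ^ 2) * ENNReal.ofReal (2 * T) := by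
          rw [lintegral_const, Measure.restrict_apply_univ, Real.volume_Icc]
          congr 2; ring
      _ = ENNReal.ofReal (10 * (m + 1) * √(m + 1) * ρ * (R' - R) * (2 * T)) *
          ∫⁻ ξ in shell (m + 1) R R', ‖G ξ‖ₑ ^ 2 := by
          rw [mul_right_comm, ← ENNReal.ofReal_mul]
          have : 0 ≤ R' - R := by linarith
          positivity
      _ ≤ _ := by
          refine mul_le_mul_left (ENNReal.ofReal_le_ofReal ?_) _
          have h0 : 0 ≤ R' - R := by linarith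
          have hm0 : 0 ≤ min ((1 + R) ^ (-ε)) (R' - R) := le_min (by positivity) h0
          rw [Bc]
          have e1 : 10 * ((m : ℝ) + 1) * √(m + 1) * ρ * (R' - R) * (2 * T) =
            (10 * (m + 1) * √(m + 1) * ρ) * (2 * T) * (R' - R) := by ring
          have e2 : 120 * ((m : ℝ) + 1) * √(m + 1) * ρ * (1 / c + 2 ^ ε * T) *
              min ((1 + R) ^ (-ε)) (R' - R) = (10 * (m + 1) * √(m + 1) * ρ) *
              (12 * (1 / c + 2 ^ ε * T)) * min ((1 + R) ^ (-ε)) (R' - R) := by ring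
          rw [e1, e2]
          have h7 : 2 * T * 2 ^ ε ≤ 12 * (1 / c + 2 ^ ε * T) := by
            have h8 : 0 < 1 / c := by positivity
            have h9 : 0 < 2 ^ ε * T := by positivity
            nlinarith
          calc (10 * ((m : ℝ) + 1) * √(m + 1) * ρ) * (2 * T) * (R' - R)
              ≤ (10 * ((m : ℝ) + 1) * √(m + 1) * ρ) * (2 * T) *
                (2 ^ ε * min ((1 + R) ^ (-ε)) (R' - R)) :=
                mul_le_mul_of_nonneg_left hmin (by positivity)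
            _ = (10 * ((m : ℝ) + 1) * √(m + 1) * ρ) * (2 * T * 2 ^ ε) *
                min ((1 + R) ^ (-ε)) (R' - R) := by ring
            _ ≤ _ := mul_le_mul_of_nonneg_right
                (mul_le_mul_of_nonneg_left h7 (by positivity)) hm0

lemma min_le_interp {x y θ : ℝ} (hx : 0 ≤ x) (hy : 0 ≤ y) (h0 : 0 ≤ θ) (h1 : θ ≤ 1) :
    min x y ≤ x ^ (1 - θ) * y ^ θ := by
  have hm : 0 ≤ min x y := le_min hx hy
  rcases hm.eq_or_lt with h | h
  · rw [← h]; positivity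
  · calc min x y = (min x y) ^ (1 - θ) * (min x y) ^ θ := by
          rw [← Real.rpow_add h]; simp
      _ ≤ x ^ (1 - θ) * y ^ θ :=
          mul_le_mul (Real.rpow_le_rpow hm (min_le_left _ _) (by linarith))
            (Real.rpow_le_rpow hm (min_le_right _ _) h0) (by positivity) (by positivity)

/-- mean squares of increments, interpolated -/
lemma inc_est' {ρ T c ε θ : ℝ} (hρ : 0 < ρ) (hT : 0 < T) (hc : 0 < c) (hε : 0 ≤ ε)
    (h0 : 0 ≤ θ) (h1 : θ ≤ 1) (hφ : Measurable fun ξ : En (m + 1) => φ ‖ξ‖)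
    (hs : Slope c ε φ) (hGm : Measurable G) (hG : MemLp G 2) (x₀ : En (m + 1)) {a d R R' : ℝ}
    (ha : 0 ≤ a) (haR : a ≤ R) (hRR : R ≤ R') (hd : R' - R ≤ d) (hcase : 1 ≤ R ∨ R' ≤ 1) :
    ∫⁻ z, ‖pth φ G z R' - pth φ G z R‖ₑ ^ 2 ∂(mu T ρ x₀) ≤
      ENNReal.ofReal (Bc m ρ T c ε * (((1 + a) ^ (-ε)) ^ (1 - θ) * d ^ θ)) *
        ∫⁻ ξ in shell (m + 1) R R', ‖G ξ‖ₑ ^ 2 := by
  refine (inc_est hρ hT hc hε hφ hs hGm hG x₀ (ha.trans haR) hRR hcase).trans ?_
  have hB := Bc_nonneg m ε hρ hT hc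
  have h5 : 0 ≤ R := ha.trans haR
  have h3 : 0 ≤ R' - R := by linarith
  have h4 : 0 ≤ (1 + R) ^ (-ε) := by positivity
  refine mul_le_mul_left (ENNReal.ofReal_le_ofReal (mul_le_mul_of_nonneg_left ?_ hB)) _
  refine (min_le_interp h4 h3 h0 h1).trans ?_
  have h2 : (1 + R) ^ (-ε) ≤ (1 + a) ^ (-ε) :=
    Real.rpow_le_rpow_of_nonpos (by linarith) (by linarith) (by linarith)
  exact mul_le_mul (Real.rpow_le_rpow h4 h2 (by linarith)) (Real.rpow_le_rpow h3 hd h0)
    (by positivity) (by positivity)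

/-- the grid on `[a, a + L]` -/
noncomputable def gr (a L : ℝ) (u : ℝ) : ℝ := a + L * min 1 (max 0 (2 * u))

lemma gr_cont (a L : ℝ) : Continuous (gr a L) := by unfold gr; fun_prop

lemma gr_mono {a L : ℝ} (hL : 0 ≤ L) : Monotone (gr a L) := by
  intro u v huv
  unfold gr
  gcongr

lemma gr_ge {a L : ℝ} (hL : 0 ≤ L) (u : ℝ) : a ≤ gr a L u := by
  unfold gr
  have : 0 ≤ min 1 (max 0 (2 * u)) := le_min zero_le_one (le_max_left _ _)
  nlinarith [mul_nonneg hL this]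

lemma gr_le {a L : ℝ} (hL : 0 ≤ L) (u : ℝ) : gr a L u ≤ a + L := by
  unfold gr
  have : min 1 (max 0 (2 * u)) ≤ 1 := min_le_left _ _
  nlinarith [mul_le_mul_of_nonneg_left this hL]

lemma gr_lip {a L : ℝ} (hL : 0 ≤ L) {u v : ℝ} (huv : u ≤ v) :
    gr a L v - gr a L u ≤ L * (2 * (v - u)) := by
  unfold gr
  have h1 : min 1 (max 0 (2 * v)) - min 1 (max 0 (2 * u)) ≤ 2 * (v - u) := by
    rcases le_total 0 (2 * u) with h | h
    · have hv : 0 ≤ 2 * v := by linarith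
      rw [max_eq_right h, max_eq_right hv]
      rcases le_total 1 (2 * u) with h2 | h2
      · rw [min_eq_left h2, min_eq_left (by linarith)]; linarith
      · rw [min_eq_right h2]
        have := min_le_right 1 (2 * v)
        linarith
    · rw [max_eq_left h, min_eq_right zero_le_one]
      rcases le_total 0 (2 * v) with h2 | h2
      · rw [max_eq_right h2]
        have := min_le_right 1 (2 * v)
        linarith
      · rw [max_eq_left h2, min_eq_right zero_le_one]; linarith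
  nlinarith [mul_le_mul_of_nonneg_left h1 hL]

/-- mean of the square sums over a dyadic grid -/
lemma block_W {ρ T c ε θ : ℝ} (hρ : 0 < ρ) (hT : 0 < T) (hc : 0 < c) (hε : 0 ≤ ε)
    (h0 : 0 ≤ θ) (h1 : θ ≤ 1) (hφ : Measurable fun ξ : En (m + 1) => φ ‖ξ‖)
    (hs : Slope c ε φ) (hGm : Measurable G) (hG : MemLp G 2) (x₀ : En (m + 1)) {a L : ℝ}
    (ha : 0 ≤ a) (hL : 0 ≤ L) (hcase : 1 ≤ a ∨ a + L ≤ 1) (j : ℕ) :
    ∫⁻ z, Wj 2 (fun u => pth φ G z (gr a L u)) (j + 1) ∂(mu T ρ x₀) ≤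
      ENNReal.ofReal (Bc m ρ T c ε * (((1 + a) ^ (-ε)) ^ (1 - θ) * (L / 2 ^ j) ^ θ)) *
        ∫⁻ ξ in shell (m + 1) a (a + L), ‖G ξ‖ₑ ^ 2 := by
  set p : ℕ → ℝ := fun i => gr a L ((i : ℝ) / 2 ^ (j + 1)) with hp
  have hpm : Monotone p := by
    intro i k hik
    refine gr_mono hL ?_
    gcongr
  have h2 : ∀ z, Wj 2 (fun u => pth φ G z (gr a L u)) (j + 1) =
      ∑' i : ℕ, ‖pth φ G z (p (i + 1)) - pth φ G z (p i)‖ₑ ^ 2 := by
    intro z
    unfold Wj
    refine tsum_congr fun i => ?_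
    rw [ENNReal.rpow_ofNat]
  simp_rw [h2]
  rw [lintegral_tsum]
  · have h3 : ∀ i : ℕ, ∫⁻ z, ‖pth φ G z (p (i + 1)) - pth φ G z (p i)‖ₑ ^ 2 ∂(mu T ρ x₀) ≤
        ENNReal.ofReal (Bc m ρ T c ε * (((1 + a) ^ (-ε)) ^ (1 - θ) * (L / 2 ^ j) ^ θ)) *
        ∫⁻ ξ in shell (m + 1) (p i) (p (i + 1)), ‖G ξ‖ₑ ^ 2 := by
      intro i
      refine inc_est' hρ hT hc hε h0 h1 hφ hs hGm hG x₀ ha (gr_ge hL _) (hpm (Nat.le_succ i))
        ?_ ?_
      · refine (gr_lip hL ?_).trans (le_of_eq ?_)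
        · gcongr; exact Nat.le_succ i
        · push_cast; field_simp; ring
      · rcases hcase with h | h
        · exact Or.inl (h.trans (gr_ge hL _))
        · exact Or.inr ((gr_le hL _).trans h)
    refine (ENNReal.tsum_le_tsum h3).trans ?_
    rw [ENNReal.tsum_mul_left]
    gcongr
    rw [← lintegral_iUnion (fun i => shell_meas _ _ _)]
    · refine lintegral_mono_set ?_
      refine iUnion_subset fun i ξ hξ => ⟨(gr_ge hL _).trans hξ.1, hξ.2.trans_le (gr_le hL _)⟩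
    · intro i k hik
      rw [Function.onFun, Set.disjoint_left]
      rintro ξ ⟨a1, a2⟩ ⟨b1, b2⟩
      rcases lt_or_gt_of_ne hik with h | h
      · have := hpm (Nat.succ_le_of_lt h)
        exact absurd (a2.trans_le (this.trans b1)) (lt_irrefl _)
      · have := hpm (Nat.succ_le_of_lt h)
        exact absurd (b2.trans_le (this.trans a1)) (lt_irrefl _)
  · intro i
    exact (((pth_meas hφ hGm hG _).sub (pth_meas hφ hGm hG _)).enorm.pow_const 2).aemeasurable

end Pool.Agent.U37.Sch
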