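import Mathlib
import Pool.Agent.U37.Sch.C
import Pool.Agent.Helper93.Sph.R

/-!
The maximal ball partial sum of dispersive evolutions: dyadic blocks and the majorant.
-/

set_option autoImplicit false
set_option linter.unusedSectionVars false

open MeasureTheory Real Set Filter Topology
open scoped ENNReal RealInnerProductSpace

namespace Pool.Agent.U37.Sch

open Pool.Agent.Helper93.Sph

/-- left end points of the blocks -/
noncomputable def al : ℕ → ℝ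
  | 0 => 0
  | J + 1 => 2 ^ J

lemma al_zero : al 0 = 0 := rfl
lemma al_succ (J : ℕ) : al (J + 1) = 2 ^ J := rfl

lemma al_nonneg (J : ℕ) : 0 ≤ al J := by
  cases J with
  | zero => exact le_rfl
  | succ J => rw [al_succ]; positivity

lemma al_lt (J : ℕ) : al J < 2 ^ J := by
  cases J with
  | zero => rw [al_zero]; norm_num
  | succ J => rw [al_succ, pow_succ]; linarith [show (0 : ℝ) < 2 ^ J by positivity]

lemma al_half (J : ℕ) : (2 : ℝ) ^ J / 2 ≤ 1 + al J := by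
  cases J with
  | zero => rw [al_zero]; norm_num
  | succ J => rw [al_succ, pow_succ]; linarith [show (0 : ℝ) < 2 ^ J by positivity]

/-- low frequencies -/
noncomputable def tr {n : ℕ} (J : ℕ) (G : En n → ℂ) : En n → ℂ := (shell n 0 (2 ^ J)).indicator G

variable {m : ℕ} {φ : ℝ → ℝ} {G : En (m + 1) → ℂ}

lemma pth_tr (G : En (m + 1) → ℂ) (z : ℝ × En (m + 1)) {J : ℕ} {R : ℝ} (hR : R ≤ 2 ^ J) :
    pth φ (tr J G) z R = pth φ G z R := by
  unfold pth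
  rw [ps_eq, ps_eq]
  congr 1
  funext ξ
  by_cases h : ξ ∈ shell (m + 1) 0 R
  · have h' : ξ ∈ shell (m + 1) 0 (2 ^ J) := ⟨h.1, h.2.trans_le hR⟩
    rw [indicator_of_mem h, indicator_of_mem h, evo, evo, tr, indicator_of_mem h']
  · rw [indicator_of_notMem h, indicator_of_notMem h]

/-- the ratio `r = 2 ^ (-θ / 2)` -/
noncomputable def rt (θ : ℝ) : ℝ≥0∞ := ENNReal.ofReal (2 ^ (-(θ / 2)))

lemma rt_ne_zero (θ : ℝ) : rt θ ≠ 0 := by
  rw [rt, Ne, ENNReal.ofReal_eq_zero, not_le]; positivity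

lemma rt_ne_top (θ : ℝ) : rt θ ≠ ⊤ := ENNReal.ofReal_ne_top

lemma rt_lt {θ : ℝ} (h : 0 < θ) : rt θ < 1 := by
  rw [rt, ENNReal.ofReal_lt_one]
  exact Real.rpow_lt_one_of_one_lt_of_neg (by norm_num) (by linarith)

lemma rt_sq (θ : ℝ) (j : ℕ) : ENNReal.ofReal (1 / (2 ^ j : ℝ) ^ θ) = rt θ ^ j * rt θ ^ j := by
  rw [rt, ← ENNReal.ofReal_pow (by positivity), ← ENNReal.ofReal_mul (by positivity)]
  congr 1
  have e1 : ((2 : ℝ) ^ (-(θ / 2))) ^ j = 2 ^ (-(θ / 2) * j) := by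
    rw [← Real.rpow_natCast, ← Real.rpow_mul (by norm_num)]
  have e2 : ((2 : ℝ) ^ j) ^ θ = 2 ^ ((j : ℝ) * θ) := by
    rw [← Real.rpow_natCast, ← Real.rpow_mul (by norm_num)]
  rw [e1, e2, one_div, ← Real.rpow_neg (by norm_num), ← Real.rpow_add (by norm_num)]
  congr 1
  ring

lemma geo_fin {r : ℝ≥0∞} (h : r < 1) : ∑' j : ℕ, r ^ j ≠ ⊤ := by
  rw [ENNReal.tsum_geometric]
  exact ENNReal.inv_ne_top.2 (tsub_pos_of_lt h).ne'

/-- majorant of the square of the oscillation of the partial sums in the block `J` -/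
noncomputable def DJ (θ : ℝ) (φ : ℝ → ℝ) (G : En (m + 1) → ℂ) (J : ℕ) (z : ℝ × En (m + 1)) : ℝ≥0∞ :=
  (∑' j : ℕ, rt θ ^ j) * ∑' j : ℕ, ((rt θ)⁻¹) ^ j *
    Wj 2 (fun u => pth φ (tr J G) z (gr (al J) (2 ^ J - al J) u)) (j + 1)

lemma DJ_bound (θ : ℝ) (hφ : Measurable fun ξ : En (m + 1) => φ ‖ξ‖) (hGm : Measurable G)
    (hG : ∀ J, MemLp (tr J G) 2) (J : ℕ) (z : ℝ × En (m + 1)) {R : ℝ} (h1 : al J ≤ R)
    (h2 : R ≤ 2 ^ J) : ‖pth φ G z R - pth φ G z (al J)‖ₑ ^ 2 ≤ DJ θ φ G J z := by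
  have hL : 0 < 2 ^ J - al J := by linarith [al_lt J]
  have hm : Measurable (tr J G) := hGm.indicator (shell_meas _ _ _)
  have hS : Continuous (fun u => pth φ (tr J G) z (gr (al J) (2 ^ J - al J) u)) :=
    (pth_cont hφ hm (hG J) z).comp (gr_cont _ _)
  set u : ℝ := (R - al J) / (2 * (2 ^ J - al J)) with hu
  have hu0 : 0 ≤ u := by
    have : 0 ≤ R - al J := by linarith
    positivity
  have hu1 : 2 * u ≤ 1 := by
    have e1 : 2 * u = (R - al J) / (2 ^ J - al J) := by rw [hu]; field_simp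
    rw [e1, div_le_one hL]; linarith
  have hgu : gr (al J) (2 ^ J - al J) u = R := by
    unfold gr
    rw [max_eq_right (by linarith), min_eq_right hu1, hu]
    field_simp
    ring
  have hfl : ⌊u⌋₊ = 0 := Nat.floor_eq_zero.2 (by linarith)
  have hg0 : gr (al J) (2 ^ J - al J) ((0 : ℕ) : ℝ) = al J := by
    unfold gr
    simp
  have h := chain (p := 2) (by norm_num) (rt_ne_zero θ) (rt_ne_top θ) hS hu0
  rw [hfl, hgu, hg0, pth_tr G z h2, pth_tr G z (al_lt J).le] at h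
  have e2 : (2 : ℝ) - 1 = 1 := by norm_num
  rw [e2, ENNReal.rpow_one, ENNReal.rpow_one, ENNReal.rpow_ofNat] at h
  exact h

lemma DJ_meas (θ : ℝ) (hφ : Measurable fun ξ : En (m + 1) => φ ‖ξ‖) (hGm : Measurable G)
    (hG : ∀ J, MemLp (tr J G) 2) (J : ℕ) : Measurable (DJ θ φ G J) := by
  have hm : Measurable (tr J G) := hGm.indicator (shell_meas _ _ _)
  unfold DJ Wj
  refine Measurable.const_mul ?_ _
  refine Measurable.tsum fun j => Measurable.const_mul ?_ _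
  refine Measurable.tsum fun i => ?_
  exact (((pth_meas hφ hm (hG J) _).sub (pth_meas hφ hm (hG J) _)).enorm.pow_const _)

lemma DJ_int {ρ T c ε θ : ℝ} (hρ : 0 < ρ) (hT : 0 < T) (hc : 0 < c) (hε : 0 ≤ ε)
    (h0 : 0 ≤ θ) (h1 : θ ≤ 1) (hφ : Measurable fun ξ : En (m + 1) => φ ‖ξ‖)
    (hs : Slope c ε φ) (hGm : Measurable G) (hG : ∀ J, MemLp (tr J G) 2) (x₀ : En (m + 1))
    (J : ℕ) :
    ∫⁻ z, DJ θ φ G J z ∂(mu T ρ x₀) ≤ (∑' j : ℕ, rt θ ^ j) ^ 2 *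
      (ENNReal.ofReal (Bc m ρ T c ε * (((1 + al J) ^ (-ε)) ^ (1 - θ) * (2 ^ J : ℝ) ^ θ)) *
        ∫⁻ ξ in shell (m + 1) (al J) (2 ^ J), ‖G ξ‖ₑ ^ 2) := by
  have hL : 0 ≤ 2 ^ J - al J := by linarith [al_lt J]
  have hm : Measurable (tr J G) := hGm.indicator (shell_meas _ _ _)
  have hB := Bc_nonneg m ε hρ hT hc
  have hI : ∫⁻ ξ in shell (m + 1) (al J) (2 ^ J), ‖tr J G ξ‖ₑ ^ 2 =
      ∫⁻ ξ in shell (m + 1) (al J) (2 ^ J), ‖G ξ‖ₑ ^ 2 := by
    refine setLIntegral_congr_fun (shell_meas _ _ _) ?_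
    intro ξ hξ
    have h' : ξ ∈ shell (m + 1) 0 (2 ^ J) := ⟨norm_nonneg _, hξ.2⟩
    simp only [tr, indicator_of_mem h']
  set I := ∫⁻ ξ in shell (m + 1) (al J) (2 ^ J), ‖G ξ‖ₑ ^ 2 with hId
  set K := ENNReal.ofReal (Bc m ρ T c ε * (((1 + al J) ^ (-ε)) ^ (1 - θ) * (2 ^ J : ℝ) ^ θ)) with hK
  have hW : ∀ j : ℕ, ∫⁻ z, Wj 2 (fun u => pth φ (tr J G) z (gr (al J) (2 ^ J - al J) u)) (j + 1)
      ∂(mu T ρ x₀) ≤ K * (rt θ ^ j * rt θ ^ j) * I := by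
    intro j
    have hcase : 1 ≤ al J ∨ al J + (2 ^ J - al J) ≤ 1 := by
      cases J with
      | zero => right; norm_num
      | succ J => left; rw [al_succ]; exact one_le_pow₀ (by norm_num)
    have h2 := block_W hρ hT hc hε h0 h1 hφ hs hm (hG J) x₀ (al_nonneg J) hL hcase j
    have e1 : al J + (2 ^ J - al J) = 2 ^ J := by ring
    rw [e1, hI] at h2
    refine h2.trans (mul_le_mul_left ?_ _)
    rw [← rt_sq, hK, ← ENNReal.ofReal_mul (by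
      have := al_nonneg J
      positivity)]
    refine ENNReal.ofReal_le_ofReal ?_
    have h3 : ((2 ^ J - al J) / 2 ^ j) ^ θ ≤ (2 ^ J : ℝ) ^ θ * (1 / (2 ^ j : ℝ) ^ θ) := by
      rw [mul_one_div, ← Real.div_rpow (by positivity) (by positivity)]
      refine Real.rpow_le_rpow (by positivity) ?_ h0
      gcongr
      linarith [al_nonneg J]
    have h4 : 0 ≤ ((1 + al J) ^ (-ε)) ^ (1 - θ) := by
      have := al_nonneg J
      positivity
    calc Bc m ρ T c ε * (((1 + al J) ^ (-ε)) ^ (1 - θ) * ((2 ^ J - al J) / 2 ^ j) ^ θ)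
        ≤ Bc m ρ T c ε * (((1 + al J) ^ (-ε)) ^ (1 - θ) *
          ((2 ^ J : ℝ) ^ θ * (1 / (2 ^ j : ℝ) ^ θ))) :=
          mul_le_mul_of_nonneg_left (mul_le_mul_of_nonneg_left h3 h4) hB
      _ = _ := by ring
  have hWm : ∀ j : ℕ, Measurable (fun z : ℝ × En (m + 1) =>
      Wj 2 (fun u => pth φ (tr J G) z (gr (al J) (2 ^ J - al J) u)) (j + 1)) := by
    intro j
    unfold Wj
    refine Measurable.tsum fun i => ?_
    exact (((pth_meas hφ hm (hG J) _).sub (pth_meas hφ hm (hG J) _)).enorm.pow_const _)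
  unfold DJ
  rw [lintegral_const_mul _ (Measurable.tsum fun j => (hWm j).const_mul _),
    lintegral_tsum (fun j => ((hWm j).const_mul _).aemeasurable)]
  have h5 : ∀ j : ℕ, ∫⁻ z, ((rt θ)⁻¹) ^ j *
      Wj 2 (fun u => pth φ (tr J G) z (gr (al J) (2 ^ J - al J) u)) (j + 1) ∂(mu T ρ x₀) ≤
      rt θ ^ j * (K * I) := by
    intro j
    rw [lintegral_const_mul _ (hWm j)]
    refine (mul_le_mul_right (hW j) _).trans (le_of_eq ?_)
    have h6 : ((rt θ)⁻¹) ^ j * rt θ ^ j = 1 := by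
      rw [← mul_pow, ENNReal.inv_mul_cancel (rt_ne_zero θ) (rt_ne_top θ), one_pow]
    calc ((rt θ)⁻¹) ^ j * (K * (rt θ ^ j * rt θ ^ j) * I)
        = (((rt θ)⁻¹) ^ j * rt θ ^ j) * (rt θ ^ j * (K * I)) := by ring
      _ = _ := by rw [h6, one_mul]
  calc (∑' j : ℕ, rt θ ^ j) * ∑' j : ℕ, ∫⁻ z, ((rt θ)⁻¹) ^ j *
      Wj 2 (fun u => pth φ (tr J G) z (gr (al J) (2 ^ J - al J) u)) (j + 1) ∂(mu T ρ x₀)
      ≤ (∑' j : ℕ, rt θ ^ j) * ∑' j : ℕ, rt θ ^ j * (K * I) :=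
        mul_le_mul_right (ENNReal.tsum_le_tsum h5) _
    _ = (∑' j : ℕ, rt θ ^ j) ^ 2 * (K * I) := by
        rw [ENNReal.tsum_mul_right]; ring

/-- weighted Cauchy-Schwarz inequality for series -/
lemma cs_tsum {q : ℝ≥0∞} (hq0 : q ≠ 0) (hqt : q ≠ ⊤) (f : ℕ → ℝ≥0∞) :
    (∑' j, f j) ^ 2 ≤ (∑' j : ℕ, q ^ j) * ∑' j : ℕ, (q⁻¹) ^ j * f j ^ 2 := by
  have h1 : ∀ J : ℕ, (∑ j ∈ Finset.range J, f j) ^ 2 ≤
      (∑' j : ℕ, q ^ j) * ∑' j : ℕ, (q⁻¹) ^ j * f j ^ 2 := by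
    intro J
    have h2 := holder_sum (p := 2) (by norm_num) hq0 hqt f J
    have e2 : (2 : ℝ) - 1 = 1 := by norm_num
    rw [e2, ENNReal.rpow_one, ENNReal.rpow_one, ENNReal.rpow_ofNat] at h2
    simp_rw [ENNReal.rpow_ofNat] at h2
    exact h2.trans (mul_le_mul' (ENNReal.sum_le_tsum _) (ENNReal.sum_le_tsum _))
  have h3 : Tendsto (fun J : ℕ => (∑ j ∈ Finset.range J, f j) ^ 2) atTop (𝓝 ((∑' j, f j) ^ 2)) :=
    ((ENNReal.continuous_pow 2).tendsto _).comp (ENNReal.tendsto_nat_tsum f)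
  exact le_of_tendsto' h3 h1

/-- the majorant -/
noncomputable def MJ (θ : ℝ) (φ : ℝ → ℝ) (G : En (m + 1) → ℂ) (z : ℝ × En (m + 1)) : ℝ≥0∞ :=
  ∑' J : ℕ, (DJ θ φ G J z) ^ (1 / 2 : ℝ)

lemma MJ_meas (θ : ℝ) (hφ : Measurable fun ξ : En (m + 1) => φ ‖ξ‖) (hGm : Measurable G)
    (hG : ∀ J, MemLp (tr J G) 2) : Measurable (MJ θ φ G) :=
  Measurable.tsum fun J => (DJ_meas θ hφ hGm hG J).pow_const _

lemma half_sq (a : ℝ≥0∞) : (a ^ (1 / 2 : ℝ)) ^ 2 = a := by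
  rw [← ENNReal.rpow_natCast, ← ENNReal.rpow_mul]; norm_num

lemma le_half {a b : ℝ≥0∞} (h : a ^ 2 ≤ b) : a ≤ b ^ (1 / 2 : ℝ) := by
  rw [← ENNReal.rpow_natCast] at h
  have := ENNReal.rpow_le_rpow h (by norm_num : (0 : ℝ) ≤ 1 / 2)
  rw [← ENNReal.rpow_mul] at this
  norm_num at this
  exact this

/-- bounds for the partial sums in the block `J` -/
lemma sum_bound (θ : ℝ) (hφ : Measurable fun ξ : En (m + 1) => φ ‖ξ‖) (hGm : Measurable G)
    (hG : ∀ J, MemLp (tr J G) 2) (z : ℝ × En (m + 1)) (J : ℕ) :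
    ∀ R : ℝ, al J ≤ R → R ≤ 2 ^ J → ‖pth φ G z R‖ₑ ≤
      ∑ i ∈ Finset.range (J + 1), (DJ θ φ G i z) ^ (1 / 2 : ℝ) := by
  induction J with
  | zero =>
    intro R h1 h2
    have h3 := le_half (DJ_bound θ hφ hGm hG 0 z h1 h2)
    have h4 : pth φ G z (al 0) = 0 := ps_zero _ _
    rw [h4, sub_zero] at h3
    simpa using h3
  | succ J ih =>
    intro R h1 h2
    have h3 := le_half (DJ_bound θ hφ hGm hG (J + 1) z h1 h2)
    have h4 := ih (2 ^ J) (al_lt J).le le_rfl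
    rw [al_succ] at h3
    rw [Finset.sum_range_succ]
    calc ‖pth φ G z R‖ₑ = ‖pth φ G z (2 ^ J) + (pth φ G z R - pth φ G z (2 ^ J))‖ₑ := by
          congr 1; ring
      _ ≤ _ := (enorm_add_le _ _).trans (add_le_add h4 h3)

lemma exists_block {R : ℝ} (hR : 0 ≤ R) : ∃ J : ℕ, al J ≤ R ∧ R ≤ 2 ^ J := by
  obtain ⟨N, hN⟩ : ∃ N : ℕ, R ≤ 2 ^ N := by
    obtain ⟨N, hN⟩ := pow_unbounded_of_one_lt R (by norm_num : (1 : ℝ) < 2)
    exact ⟨N, hN.le⟩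
  classical
  refine ⟨Nat.find ⟨N, hN⟩, ?_, Nat.find_spec (⟨N, hN⟩ : ∃ N : ℕ, R ≤ 2 ^ N)⟩
  rcases hJ : Nat.find (⟨N, hN⟩ : ∃ N : ℕ, R ≤ 2 ^ N) with _ | J
  · rw [al_zero]; exact hR
  · rw [al_succ]
    have h1 : J < Nat.find (⟨N, hN⟩ : ∃ N : ℕ, R ≤ 2 ^ N) := by omega
    have h2 := Nat.find_min (⟨N, hN⟩ : ∃ N : ℕ, R ≤ 2 ^ N) h1
    exact (not_le.1 h2).le

/-- **the majorant bounds all partial sums** -/
theorem MJ_bound (θ : ℝ) (hφ : Measurable fun ξ : En (m + 1) => φ ‖ξ‖) (hGm : Measurable G)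
    (hG : ∀ J, MemLp (tr J G) 2) (z : ℝ × En (m + 1)) (R : ℝ) :
    ‖pth φ G z R‖ₑ ≤ MJ θ φ G z := by
  rcases lt_or_ge R 0 with h | h
  · have : pth φ G z R = 0 := ps_neg _ h _
    rw [this]; simp
  · obtain ⟨J, h1, h2⟩ := exists_block h
    exact (sum_bound θ hφ hGm hG z J R h1 h2).trans (ENNReal.sum_le_tsum _)

lemma osc_bound (θ : ℝ) (hφ : Measurable fun ξ : En (m + 1) => φ ‖ξ‖) (hGm : Measurable G)
    (hG : ∀ J, MemLp (tr J G) 2) (z : ℝ × En (m + 1)) (N k : ℕ) :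
    ∀ R : ℝ, al (N + 1 + k) ≤ R → R ≤ 2 ^ (N + 1 + k) → ‖pth φ G z R - pth φ G z (2 ^ N)‖ₑ ≤
      ∑ i ∈ Finset.range (k + 1), (DJ θ φ G (i + (N + 1)) z) ^ (1 / 2 : ℝ) := by
  induction k with
  | zero =>
    intro R h1 h2
    have h3 := le_half (DJ_bound θ hφ hGm hG (N + 1) z h1 h2)
    rw [al_succ] at h3
    simpa using h3
  | succ k ih =>
    intro R h1 h2
    have e1 : N + 1 + (k + 1) = (N + 1 + k) + 1 := by ring
    rw [e1] at h1 h2
    have h3 := le_half (DJ_bound θ hφ hGm hG (N + 1 + k + 1) z h1 h2)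
    have h4 := ih (2 ^ (N + 1 + k)) (al_lt _).le le_rfl
    rw [al_succ] at h3
    rw [Finset.sum_range_succ]
    have e2 : k + 1 + (N + 1) = N + 1 + k + 1 := by ring
    rw [e2]
    calc ‖pth φ G z R - pth φ G z (2 ^ N)‖ₑ = ‖(pth φ G z (2 ^ (N + 1 + k)) - pth φ G z (2 ^ N)) +
          (pth φ G z R - pth φ G z (2 ^ (N + 1 + k)))‖ₑ := by
          congr 1; ring
      _ ≤ _ := (enorm_add_le _ _).trans (add_le_add h4 h3)

/-- **convergence where the majorant is finite** -/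
theorem MJ_conv (θ : ℝ) (hφ : Measurable fun ξ : En (m + 1) => φ ‖ξ‖) (hGm : Measurable G)
    (hG : ∀ J, MemLp (tr J G) 2) (z : ℝ × En (m + 1)) (hM : MJ θ φ G z ≠ ⊤) :
    ∃ L : ℂ, Tendsto (fun R => pth φ G z R) atTop (𝓝 L) := by
  apply conv_of_small
  intro δ hδ
  have h1 := ENNReal.tendsto_sum_nat_add (fun J => (DJ θ φ G J z) ^ (1 / 2 : ℝ)) hM
  have h2 : ∀ᶠ N : ℕ in atTop, ∑' i, (DJ θ φ G (i + N) z) ^ (1 / 2 : ℝ) < ENNReal.ofReal δ :=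
    h1.eventually (gt_mem_nhds (by simpa using hδ))
  obtain ⟨N, hN⟩ := h2.exists_forall_of_atTop
  refine ⟨2 ^ N, fun R hR => ?_⟩
  have h3 := hN (N + 1) (Nat.le_succ N)
  have hR0 : 0 ≤ R := le_trans (by positivity) hR
  have key : ‖pth φ G z R - pth φ G z (2 ^ N)‖ₑ ≤ ENNReal.ofReal δ := by
    rcases hR.eq_or_lt with h | h
    · rw [← h, sub_self]; simp
    · obtain ⟨J, a1, a2⟩ := exists_block hR0
      have hJ : N + 1 ≤ J := by
        by_contra hcon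
        have : J ≤ N := by omega
        have : (2 : ℝ) ^ J ≤ 2 ^ N := pow_le_pow_right₀ (by norm_num) this
        linarith
      obtain ⟨k, rfl⟩ := Nat.exists_eq_add_of_le hJ
      exact (osc_bound θ hφ hGm hG z N k R a1 a2).trans ((ENNReal.sum_le_tsum _).trans h3.le)
  rw [← ofReal_norm] at key
  exact (ENNReal.ofReal_le_ofReal_iff hδ.le).1 key

end Pool.Agent.U37.Sch
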