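import Mathlib
import Pool.Agent.U37.Sch.D

/-!
The maximal ball partial sum of dispersive evolutions: the weighted estimate and convergence.
-/

set_option autoImplicit false
set_option linter.unusedSectionVars false

open MeasureTheory Real Set Filter Topology
open scoped ENNReal RealInnerProductSpace

namespace Pool.Agent.U37.Sch

open Pool.Agent.Helper93.Sph

variable {m : ℕ} {φ : ℝ → ℝ} {G : En (m + 1) → ℂ}

/-- the weight -/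
noncomputable def wt {n : ℕ} (σ : ℝ) (ξ : En n) : ℝ := (1 + ‖ξ‖) ^ (-(2 * σ))

lemma wt_pos {n : ℕ} (σ : ℝ) (ξ : En n) : 0 < wt σ ξ := by
  have := norm_nonneg ξ
  unfold wt; positivity

lemma wt_meas {n : ℕ} (σ : ℝ) : Measurable (wt σ : En n → ℝ) := by
  unfold wt
  exact (measurable_norm.const_add 1).pow_const _

/-- the exponent -/
noncomputable def th (ε σ : ℝ) : ℝ := (ε - 2 * σ) / (ε + 2)

lemma th_pos {ε σ : ℝ} (hε : 0 < ε) (hσε : 2 * σ < ε) : 0 < th ε σ := by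
  unfold th
  have : 0 < ε - 2 * σ := by linarith
  positivity

lemma th_le {ε σ : ℝ} (hε : 0 < ε) (hσ : 0 ≤ σ) : th ε σ ≤ 1 := by
  unfold th
  rw [div_le_one (by linarith)]; linarith

lemma th_eq {ε σ : ℝ} (hε : 0 < ε) : 2 * th ε σ - ε * (1 - th ε σ) = -(2 * σ) := by
  unfold th
  field_simp
  ring

/-- the constant -/
noncomputable def Cc (m : ℕ) (ρ T c ε σ : ℝ) : ℝ≥0∞ :=
  (∑' J : ℕ, rt (2 * th ε σ) ^ J) * ((∑' j : ℕ, rt (th ε σ) ^ j) ^ 2 *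
    ENNReal.ofReal (Bc m ρ T c ε * (2 ^ (ε * (1 - th ε σ)) * 2 ^ (2 * σ))))

lemma Cc_ne_top (m : ℕ) (ρ T c : ℝ) {ε σ : ℝ} (hε : 0 < ε) (hσε : 2 * σ < ε) :
    Cc m ρ T c ε σ ≠ ⊤ := by
  unfold Cc
  have h := th_pos hε hσε
  exact ENNReal.mul_ne_top (geo_fin (rt_lt (by linarith)))
    (ENNReal.mul_ne_top (ENNReal.pow_ne_top (geo_fin (rt_lt h))) ENNReal.ofReal_ne_top)

lemma rt_inv (θ : ℝ) (J : ℕ) : ((rt (2 * θ))⁻¹) ^ J = ENNReal.ofReal (((2 : ℝ) ^ J) ^ θ) := by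
  have h1 : rt (2 * θ) ^ J = ENNReal.ofReal (1 / ((2 : ℝ) ^ J) ^ θ) := by
    rw [rt, ← ENNReal.ofReal_pow (by positivity)]
    congr 1
    have e1 : ((2 : ℝ) ^ (-(2 * θ / 2))) ^ J = 2 ^ (-θ * J) := by
      rw [← Real.rpow_natCast, ← Real.rpow_mul (by norm_num)]
      congr 1; ring
    have e2 : ((2 : ℝ) ^ J) ^ θ = 2 ^ ((J : ℝ) * θ) := by
      rw [← Real.rpow_natCast, ← Real.rpow_mul (by norm_num)]
    rw [e1, e2, one_div, ← Real.rpow_neg (by norm_num)]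
    congr 1; ring
  rw [← ENNReal.inv_pow, h1, ← ENNReal.ofReal_inv_of_pos (by positivity), one_div, inv_inv]

lemma block_const {ρ T c ε σ : ℝ} (hρ : 0 < ρ) (hT : 0 < T) (hc : 0 < c) (hε : 0 < ε)
    (hσ : 0 ≤ σ) (J : ℕ) :
    ((2 : ℝ) ^ J) ^ (th ε σ) *
      (Bc m ρ T c ε * (((1 + al J) ^ (-ε)) ^ (1 - th ε σ) * (2 ^ J : ℝ) ^ (th ε σ))) ≤
    Bc m ρ T c ε * 2 ^ (ε * (1 - th ε σ)) * ((2 : ℝ) ^ J) ^ (-(2 * σ)) := by
  have hB := Bc_nonneg m ε hρ hT hc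
  have h1 := th_le hε hσ
  have hx : (0 : ℝ) < 2 ^ J := by positivity
  set θ := th ε σ with hθ
  set x : ℝ := 2 ^ J with hxd
  have h2 : ((1 + al J) ^ (-ε)) ^ (1 - θ) ≤ x ^ (-(ε * (1 - θ))) * 2 ^ (ε * (1 - θ)) := by
    have h3 : (1 + al J) ^ (-ε) ≤ (x / 2) ^ (-ε) :=
      Real.rpow_le_rpow_of_nonpos (by positivity) (al_half J) (by linarith)
    have h4 : 0 ≤ (1 + al J) ^ (-ε) := by
      have := al_nonneg J
      positivity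
    refine (Real.rpow_le_rpow h4 h3 (by linarith)).trans (le_of_eq ?_)
    rw [← Real.rpow_mul (by positivity), Real.div_rpow hx.le (by norm_num), div_eq_mul_inv,
      ← Real.rpow_neg (by norm_num)]
    congr 2 <;> ring
  have h5 : x ^ θ * (x ^ (-(ε * (1 - θ))) * 2 ^ (ε * (1 - θ)) * x ^ θ) =
      2 ^ (ε * (1 - θ)) * x ^ (-(2 * σ)) := by
    rw [← th_eq (σ := σ) hε, ← hθ]
    have e1 : 2 * θ - ε * (1 - θ) = θ + -(ε * (1 - θ)) + θ := by ring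
    rw [e1, Real.rpow_add hx, Real.rpow_add hx]
    ring
  calc x ^ θ * (Bc m ρ T c ε * (((1 + al J) ^ (-ε)) ^ (1 - θ) * x ^ θ))
      ≤ x ^ θ * (Bc m ρ T c ε * ((x ^ (-(ε * (1 - θ))) * 2 ^ (ε * (1 - θ))) * x ^ θ)) := by
        refine mul_le_mul_of_nonneg_left (mul_le_mul_of_nonneg_left
          (mul_le_mul_of_nonneg_right h2 (by positivity)) hB) (by positivity)
    _ = Bc m ρ T c ε * (x ^ θ * (x ^ (-(ε * (1 - θ))) * 2 ^ (ε * (1 - θ)) * x ^ θ)) := by ring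
    _ = _ := by rw [h5]; ring

lemma block_weight {A σ : ℝ} (hA : 0 ≤ A) (hσ : 0 ≤ σ) (J : ℕ) :
    ENNReal.ofReal (A * ((2 : ℝ) ^ J) ^ (-(2 * σ))) *
      ∫⁻ ξ in shell (m + 1) (al J) (2 ^ J), ‖G ξ‖ₑ ^ 2 ≤
    ENNReal.ofReal (A * 2 ^ (2 * σ)) *
      ∫⁻ ξ in shell (m + 1) (al J) (2 ^ J), ENNReal.ofReal (wt σ ξ) * ‖G ξ‖ₑ ^ 2 := by
  rw [← lintegral_const_mul' _ _ ENNReal.ofReal_ne_top,
    ← lintegral_const_mul' _ _ ENNReal.ofReal_ne_top]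
  refine setLIntegral_mono' (shell_meas _ _ _) fun ξ hξ => ?_
  rw [← mul_assoc, ← ENNReal.ofReal_mul (by positivity)]
  refine mul_le_mul_left (ENNReal.ofReal_le_ofReal ?_) _
  rw [mul_assoc]
  refine mul_le_mul_of_nonneg_left ?_ hA
  have hx : (1 : ℝ) ≤ 2 ^ J := one_le_pow₀ (by norm_num)
  have h1 : 1 + ‖ξ‖ ≤ 2 * 2 ^ J := by
    have := hξ.2
    linarith
  have h0 := norm_nonneg ξ
  have h2 : (2 * 2 ^ J : ℝ) ^ (-(2 * σ)) ≤ wt σ ξ :=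
    Real.rpow_le_rpow_of_nonpos (by linarith) h1 (by linarith)
  rw [Real.mul_rpow (by norm_num) (by positivity)] at h2
  have e1 : (2 : ℝ) ^ (2 * σ) * 2 ^ (-(2 * σ)) = 1 := by
    rw [← Real.rpow_add (by norm_num)]; simp
  calc ((2 : ℝ) ^ J) ^ (-(2 * σ))
      = (2 : ℝ) ^ (2 * σ) * (2 ^ (-(2 * σ)) * ((2 : ℝ) ^ J) ^ (-(2 * σ))) := by
        rw [← mul_assoc, e1, one_mul]
    _ ≤ 2 ^ (2 * σ) * wt σ ξ := mul_le_mul_of_nonneg_left h2 (by positivity)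

lemma blocks_sum (f : En (m + 1) → ℝ≥0∞) :
    ∑' J : ℕ, ∫⁻ ξ in shell (m + 1) (al J) (2 ^ J), f ξ ≤ ∫⁻ ξ, f ξ := by
  rw [← lintegral_iUnion (fun J => shell_meas _ _ _)]
  · exact setLIntegral_le_lintegral _ _
  · have hmono : ∀ i k : ℕ, i < k → (2 : ℝ) ^ i ≤ al k := by
      intro i k hik
      obtain ⟨k, rfl⟩ := Nat.exists_eq_succ_of_ne_zero (by omega : k ≠ 0)
      rw [Nat.succ_eq_add_one, al_succ]
      exact pow_le_pow_right₀ (by norm_num) (by omega)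
    intro i k hik
    rw [Function.onFun, Set.disjoint_left]
    rintro ξ ⟨a1, a2⟩ ⟨b1, b2⟩
    rcases lt_or_gt_of_ne hik with h | h
    · exact absurd (a2.trans_le ((hmono i k h).trans b1)) (lt_irrefl _)
    · exact absurd (b2.trans_le ((hmono k i h).trans a1)) (lt_irrefl _)

/-- **the maximal inequality** -/
theorem MJ_int {ρ T c ε σ : ℝ} (hρ : 0 < ρ) (hT : 0 < T) (hc : 0 < c) (hε : 0 < ε)
    (hσ : 0 ≤ σ) (hσε : 2 * σ < ε) (hφ : Measurable fun ξ : En (m + 1) => φ ‖ξ‖)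
    (hs : Slope c ε φ) (hGm : Measurable G) (hG : ∀ J, MemLp (tr J G) 2) (x₀ : En (m + 1)) :
    ∫⁻ z, (MJ (th ε σ) φ G z) ^ 2 ∂(mu T ρ x₀) ≤
      Cc m ρ T c ε σ * ∫⁻ ξ, ENNReal.ofReal (wt σ ξ) * ‖G ξ‖ₑ ^ 2 := by
  set θ := th ε σ with hθ
  have hθ0 : 0 < θ := th_pos hε hσε
  have hθ1 : θ ≤ 1 := th_le hε hσ
  have hB := Bc_nonneg m ε hρ hT hc
  set q := rt (2 * θ) with hq
  set Z := ∑' j : ℕ, rt θ ^ j with hZ
  have hmD : ∀ J, Measurable (DJ θ φ G J) := fun J => DJ_meas θ hφ hGm hG J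
  have h1 : ∀ z, (MJ θ φ G z) ^ 2 ≤ (∑' J : ℕ, q ^ J) * ∑' J : ℕ, (q⁻¹) ^ J * DJ θ φ G J z := by
    intro z
    have h0 := cs_tsum (q := q) (rt_ne_zero (2 * θ)) (rt_ne_top (2 * θ))
      (fun J => (DJ θ φ G J z) ^ (1 / 2 : ℝ))
    simp_rw [half_sq] at h0
    exact h0
  have h2 : ∀ J : ℕ, ∫⁻ z, (q⁻¹) ^ J * DJ θ φ G J z ∂(mu T ρ x₀) ≤
      Z ^ 2 * ENNReal.ofReal (Bc m ρ T c ε * (2 ^ (ε * (1 - θ)) * 2 ^ (2 * σ))) *
      ∫⁻ ξ in shell (m + 1) (al J) (2 ^ J), ENNReal.ofReal (wt σ ξ) * ‖G ξ‖ₑ ^ 2 := by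
    intro J
    rw [lintegral_const_mul _ (hmD J)]
    have h3 := DJ_int hρ hT hc hε.le hθ0.le hθ1 hφ hs hGm hG x₀ J
    refine (mul_le_mul_right h3 _).trans ?_
    rw [hq, rt_inv]
    set I := ∫⁻ ξ in shell (m + 1) (al J) (2 ^ J), ‖G ξ‖ₑ ^ 2 with hI
    have h4 := block_const (m := m) hρ hT hc hε hσ J
    rw [← hθ] at h4
    have h5 := block_weight (G := G) (A := Bc m ρ T c ε * 2 ^ (ε * (1 - θ))) (σ := σ)
      (by positivity) hσ J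
    rw [← hI] at h5
    calc ENNReal.ofReal (((2 : ℝ) ^ J) ^ θ) * (Z ^ 2 * (ENNReal.ofReal (Bc m ρ T c ε *
          (((1 + al J) ^ (-ε)) ^ (1 - θ) * (2 ^ J : ℝ) ^ θ)) * I))
        = Z ^ 2 * (ENNReal.ofReal (((2 : ℝ) ^ J) ^ θ) * ENNReal.ofReal (Bc m ρ T c ε *
          (((1 + al J) ^ (-ε)) ^ (1 - θ) * (2 ^ J : ℝ) ^ θ)) * I) := by ring
      _ = Z ^ 2 * (ENNReal.ofReal (((2 : ℝ) ^ J) ^ θ * (Bc m ρ T c ε *
          (((1 + al J) ^ (-ε)) ^ (1 - θ) * (2 ^ J : ℝ) ^ θ))) * I) := by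
          rw [← ENNReal.ofReal_mul (p := ((2 : ℝ) ^ J) ^ θ) (by positivity)]
      _ ≤ Z ^ 2 * (ENNReal.ofReal (Bc m ρ T c ε * 2 ^ (ε * (1 - θ)) *
          ((2 : ℝ) ^ J) ^ (-(2 * σ))) * I) :=
          mul_le_mul_right (mul_le_mul_left (ENNReal.ofReal_le_ofReal h4) _) _
      _ ≤ Z ^ 2 * (ENNReal.ofReal (Bc m ρ T c ε * 2 ^ (ε * (1 - θ)) * 2 ^ (2 * σ)) *
          ∫⁻ ξ in shell (m + 1) (al J) (2 ^ J), ENNReal.ofReal (wt σ ξ) * ‖G ξ‖ₑ ^ 2) :=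
          mul_le_mul_right h5 _
      _ = _ := by rw [← mul_assoc, mul_assoc (Bc m ρ T c ε)]
  calc ∫⁻ z, (MJ θ φ G z) ^ 2 ∂(mu T ρ x₀)
      ≤ ∫⁻ z, (∑' J : ℕ, q ^ J) * ∑' J : ℕ, (q⁻¹) ^ J * DJ θ φ G J z ∂(mu T ρ x₀) :=
        lintegral_mono h1
    _ = (∑' J : ℕ, q ^ J) * ∑' J : ℕ, ∫⁻ z, (q⁻¹) ^ J * DJ θ φ G J z ∂(mu T ρ x₀) := by
        rw [lintegral_const_mul _ (Measurable.tsum fun J => (hmD J).const_mul _),
          lintegral_tsum (fun J => ((hmD J).const_mul _).aemeasurable)]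
    _ ≤ (∑' J : ℕ, q ^ J) * ∑' J : ℕ,
        Z ^ 2 * ENNReal.ofReal (Bc m ρ T c ε * (2 ^ (ε * (1 - θ)) * 2 ^ (2 * σ))) *
        ∫⁻ ξ in shell (m + 1) (al J) (2 ^ J), ENNReal.ofReal (wt σ ξ) * ‖G ξ‖ₑ ^ 2 :=
        mul_le_mul_right (ENNReal.tsum_le_tsum h2) _
    _ ≤ (∑' J : ℕ, q ^ J) * (
        Z ^ 2 * ENNReal.ofReal (Bc m ρ T c ε * (2 ^ (ε * (1 - θ)) * 2 ^ (2 * σ))) *
        ∫⁻ ξ, ENNReal.ofReal (wt σ ξ) * ‖G ξ‖ₑ ^ 2) := by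
        rw [ENNReal.tsum_mul_left]
        exact mul_le_mul_right (mul_le_mul_right (blocks_sum _) _) _
    _ = _ := by rw [Cc, ← mul_assoc]

/-- low frequencies of functions with finite weighted norm are square integrable -/
lemma tr_memLp {σ : ℝ} (hσ : 0 ≤ σ) (hGm : Measurable G)
    (h : ∫⁻ ξ, ENNReal.ofReal (wt σ ξ) * ‖G ξ‖ₑ ^ 2 ≠ ⊤) (J : ℕ) : MemLp (tr J G) 2 := by
  have hm : Measurable (tr J G) := hGm.indicator (shell_meas _ _ _)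
  refine ⟨hm.aestronglyMeasurable, ?_⟩
  rw [eLpNorm_lt_top_iff_lintegral_rpow_enorm_lt_top (by norm_num) (by norm_num)]
  have h2 : ∀ ξ, ‖tr J G ξ‖ₑ ^ ((2 : ℝ≥0∞).toReal) ≤
      ENNReal.ofReal ((2 * 2 ^ J) ^ (2 * σ)) * (ENNReal.ofReal (wt σ ξ) * ‖G ξ‖ₑ ^ 2) := by
    intro ξ
    have e1 : (2 : ℝ≥0∞).toReal = 2 := by norm_num
    rw [e1, ENNReal.rpow_ofNat]
    by_cases hξ : ξ ∈ shell (m + 1) 0 (2 ^ J)
    · rw [tr, indicator_of_mem hξ, ← mul_assoc, ← ENNReal.ofReal_mul (by positivity)]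
      have hx : (1 : ℝ) ≤ 2 ^ J := one_le_pow₀ (by norm_num)
      have h0 := norm_nonneg ξ
      have h1 : 1 + ‖ξ‖ ≤ 2 * 2 ^ J := by
        have := hξ.2
        linarith
      have h3 : 1 ≤ (2 * 2 ^ J) ^ (2 * σ) * wt σ ξ := by
        have h4 : (1 + ‖ξ‖) ^ (2 * σ) ≤ (2 * 2 ^ J) ^ (2 * σ) :=
          Real.rpow_le_rpow (by positivity) h1 (by linarith)
        have h5 : (1 + ‖ξ‖) ^ (2 * σ) * wt σ ξ = 1 := by
          rw [wt, ← Real.rpow_add (by positivity)]; simp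
        rw [← h5]
        exact mul_le_mul_of_nonneg_right h4 (wt_pos σ ξ).le
      calc ‖G ξ‖ₑ ^ 2 = ENNReal.ofReal 1 * ‖G ξ‖ₑ ^ 2 := by rw [ENNReal.ofReal_one, one_mul]
        _ ≤ _ := mul_le_mul_left (ENNReal.ofReal_le_ofReal h3) _
    · rw [tr, indicator_of_notMem hξ]; simp
  refine lt_of_le_of_lt (lintegral_mono h2) ?_
  rw [lintegral_const_mul' _ _ ENNReal.ofReal_ne_top]
  exact ENNReal.mul_lt_top ENNReal.ofReal_lt_top (lt_top_iff_ne_top.2 h)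

/-- **almost everywhere convergence at almost all times** -/
theorem ae_conv {c ε σ : ℝ} (hc : 0 < c) (hε : 0 < ε)
    (hσ : 0 ≤ σ) (hσε : 2 * σ < ε) (hφ : Measurable fun ξ : En (m + 1) => φ ‖ξ‖)
    (hs : Slope c ε φ) (hGm : Measurable G)
    (h : ∫⁻ ξ, ENNReal.ofReal (wt σ ξ) * ‖G ξ‖ₑ ^ 2 ≠ ⊤) :
    ∀ᵐ t : ℝ, ∀ᵐ x : En (m + 1), ∃ L : ℂ, Tendsto (fun R => pth φ G (t, x) R) atTop (𝓝 L) := by
  have hG := tr_memLp hσ hGm h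
  have h1 : ∀ K : ℕ, ∀ᵐ t : ℝ, t ∈ Icc (-((K : ℝ) + 1)) ((K : ℝ) + 1) → ∀ᵐ x : En (m + 1),
      x ∈ Metric.closedBall (0 : En (m + 1)) ((K : ℝ) + 1) → MJ (th ε σ) φ G (t, x) ≠ ⊤ := by
    intro K
    have hK : (0 : ℝ) < (K : ℝ) + 1 := by positivity
    have h2 := MJ_int (ρ := (K : ℝ) + 1) (T := (K : ℝ) + 1) hK hK hc hε hσ hσε hφ hs hGm hG
      (0 : En (m + 1))
    have h3 : ∫⁻ z, (MJ (th ε σ) φ G z) ^ 2 ∂(mu ((K : ℝ) + 1) ((K : ℝ) + 1) (0 : En (m + 1))) ≠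
        ⊤ := ne_top_of_le_ne_top (ENNReal.mul_ne_top (Cc_ne_top m _ _ c hε hσε) h) h2
    have h4 := ae_lt_top ((MJ_meas (th ε σ) hφ hGm hG).pow_const 2) h3
    have h5 := Measure.ae_ae_of_ae_prod h4
    rw [ae_restrict_iff' measurableSet_Icc] at h5
    filter_upwards [h5] with t ht htK
    have h6 := ht htK
    rw [ae_restrict_iff' Metric.isClosed_closedBall.measurableSet] at h6
    filter_upwards [h6] with x hx hxK
    have h7 := hx hxK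
    intro hcon
    rw [hcon] at h7
    simp at h7
  have h8 := ae_all_iff.2 h1
  filter_upwards [h8] with t ht
  have h9 : ∀ᵐ x : En (m + 1), ∀ K : ℕ, t ∈ Icc (-((K : ℝ) + 1)) ((K : ℝ) + 1) →
      x ∈ Metric.closedBall (0 : En (m + 1)) ((K : ℝ) + 1) → MJ (th ε σ) φ G (t, x) ≠ ⊤ := by
    rw [ae_all_iff]
    intro K
    by_cases hK : t ∈ Icc (-((K : ℝ) + 1)) ((K : ℝ) + 1)
    · filter_upwards [ht K hK] with x hx _
      exact hx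
    · exact Eventually.of_forall fun x h' => absurd h' hK
  filter_upwards [h9] with x hx
  obtain ⟨K, hK⟩ := exists_nat_ge (max |t| ‖x‖)
  have a1 : |t| ≤ (K : ℝ) + 1 := (le_max_left _ _).trans (hK.trans (by linarith))
  have a2 : ‖x‖ ≤ (K : ℝ) + 1 := (le_max_right _ _).trans (hK.trans (by linarith))
  exact MJ_conv (th ε σ) hφ hGm hG (t, x)
    (hx K ⟨(abs_le.1 a1).1, (abs_le.1 a1).2⟩ (by simpa using a2))

end Pool.Agent.U37.Sch
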