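import Mathlib
import Pool.Agent.U37.Sch.E

/-!
Identification of the limit of the ball partial sums for square integrable data.
-/

set_option autoImplicit false
set_option linter.unusedSectionVars false

open MeasureTheory Real Set Filter Topology FourierTransform SchwartzMap
open scoped ENNReal RealInnerProductSpace ContDiff

namespace Pool.Agent.U37.Sch

section

variable {V : Type*} [NormedAddCommGroup V] [InnerProductSpace ℝ V] [MeasurableSpace V]
  [BorelSpace V] [FiniteDimensional ℝ V]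

lemma finv_cont (f : V → ℂ) (h1 : Integrable f) : Continuous (𝓕⁻ f) := by
  have hcont : Continuous (𝓕 f) :=
    VectorFourier.fourierIntegral_continuous (L := innerₗ V) Real.continuous_fourierChar
      continuous_inner h1
  have e : 𝓕⁻ f = fun x => 𝓕 f (-x) := by
    funext x; rw [Real.fourierInv_eq_fourier_neg]
  rw [e]
  exact hcont.comp continuous_neg

/-- the two inverse Fourier transforms agree for `L¹ ∩ L²` functions -/
lemma finv_ae_eq (f : V → ℂ) (h1 : Integrable f) (h2 : MemLp f 2) :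
    ((𝓕⁻ (h2.toLp f) : Lp ℂ 2 (volume : Measure V)) : V → ℂ) =ᵐ[volume] 𝓕⁻ f := by
  apply ae_eq_of_integral_contDiff_smul_eq
  · exact (Lp.memLp _).locallyIntegrable (by norm_num)
  · exact (finv_cont f h1).locallyIntegrable
  · intro g g_smooth g_cpt
    have hg₁ : HasCompactSupport (Complex.ofRealCLM ∘ g) := g_cpt.comp_left rfl
    have hg₂ : ContDiff ℝ ∞ (Complex.ofRealCLM ∘ g) := by fun_prop
    set gS : 𝓢(V, ℂ) := hg₁.toSchwartzMap hg₂ with hgS
    have hgx : ∀ x, gS x = (g x : ℂ) := fun x => rfl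
    have e1 : ∫ x, g x • ((𝓕⁻ (h2.toLp f) : Lp ℂ 2 (volume : Measure V)) : V → ℂ) x =
        ((𝓕⁻ (h2.toLp f) : Lp ℂ 2 (volume : Measure V)) : 𝓢'(V, ℂ)) gS := by
      rw [Lp.toTemperedDistribution_apply]
      simp [hgx]
    rw [e1, ← Lp.fourierInv_toTemperedDistribution_eq, TemperedDistribution.fourierInv_apply,
      Lp.toTemperedDistribution_apply]
    have e2 : ∫ x, (𝓕⁻ gS) x • (h2.toLp f : V → ℂ) x = ∫ x, (𝓕⁻ gS) x • f x := by
      apply integral_congr_ae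
      filter_upwards [h2.coeFn_toLp] with x hx
      rw [hx]
    rw [e2]
    have e3 := VectorFourier.integral_fourierIntegral_smul_eq_flip (L := innerₗ V)
      Real.continuous_fourierChar continuous_inner gS.integrable h1 (μ := volume) (ν := volume)
    simp only [flip_innerₗ] at e3
    have e3' : ∫ x, (𝓕 (gS : V → ℂ)) x • f x = ∫ x, gS x • (𝓕 f) x := e3
    have e4 : ∫ x, (𝓕⁻ gS) x • f x = ∫ x, gS x • (𝓕⁻ f) x := by
      rw [SchwartzMap.fourierInv_coe]
      have a1 : ∀ x, 𝓕⁻ f x = 𝓕 (fun y => f (-y)) x := fun x => by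
        rw [Real.fourierInv_eq_fourier_comp_neg]
      have a2 : ∀ x, 𝓕⁻ (gS : V → ℂ) x = 𝓕 (gS : V → ℂ) (-x) := fun x => by
        rw [Real.fourierInv_eq_fourier_neg]
      simp_rw [a1, a2]
      have h1' : Integrable (fun y => f (-y)) := h1.comp_neg
      have e5 := VectorFourier.integral_fourierIntegral_smul_eq_flip (L := innerₗ V)
        Real.continuous_fourierChar continuous_inner gS.integrable h1' (μ := volume)
        (ν := volume)
      simp only [flip_innerₗ] at e5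
      have e5' : ∫ x, (𝓕 (gS : V → ℂ)) x • f (-x) = ∫ x, gS x • (𝓕 (fun y => f (-y))) x := e5
      rw [← e5', ← integral_neg_eq_self]
      simp only [neg_neg]
    rw [e4]
    simp [hgx]

end

open Pool.Agent.Helper93.Sph

lemma Fi_eq {n : ℕ} (F : En n → ℂ) (x : En n) : Fi F x = 𝓕⁻ F x := by
  rw [Fi, Real.fourierInv_eq']
  refine integral_congr_ae (Eventually.of_forall fun ξ => ?_)
  simp only [ek, smul_eq_mul]
  rw [real_inner_comm]
  congr 2
  push_cast; ring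

/-- the limit, if it exists almost everywhere, is the `L²` inverse Fourier transform -/
theorem limit_eq {m : ℕ} {F : En (m + 1) → ℂ} (hF : MemLp F 2)
    (h : ∀ᵐ x : En (m + 1), ∃ L : ℂ, Tendsto (fun R => ps F R x) atTop (𝓝 L)) :
    ∀ᵐ x : En (m + 1), Tendsto (fun R => ps F R x) atTop
      (𝓝 ((𝓕⁻ (hF.toLp F) : Lp ℂ 2 (volume : Measure (En (m + 1)))) x)) := by
  set U : Lp ℂ 2 (volume : Measure (En (m + 1))) := 𝓕⁻ (hF.toLp F) with hU
  have hFk : ∀ k : ℕ, MemLp ((shell (m + 1) 0 k).indicator F) 2 := fun k =>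
    hF.indicator (shell_meas _ _ _)
  have hFi : ∀ k : ℕ, Integrable ((shell (m + 1) 0 k).indicator F) := fun k => ind_int hF _ _
  set Uk : ℕ → Lp ℂ 2 (volume : Measure (En (m + 1))) := fun k => 𝓕⁻ ((hFk k).toLp _) with hUk
  have h1 : ∀ k : ℕ, (Uk k : En (m + 1) → ℂ) =ᵐ[volume] fun x => ps F k x := by
    intro k
    filter_upwards [finv_ae_eq _ (hFi k) (hFk k)] with x hx
    rw [hx, ps_eq, Fi_eq]
  have h2 : Tendsto Uk atTop (𝓝 U) := by
    rw [tendsto_iff_norm_sub_tendsto_zero]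
    have h3 : ∀ k, ‖Uk k - U‖ = (eLpNorm (tail (k : ℝ) F) 2).toReal := by
      intro k
      have e1 : Uk k - U = 𝓕⁻ ((hFk k).toLp _ - hF.toLp F) := by
        rw [hUk, hU]
        simp only [sub_eq_add_neg]
        rw [FourierTransform.fourierInv_add]
        congr 1
        simp
      rw [e1]
      have e2 : ‖(𝓕⁻ ((hFk k).toLp _ - hF.toLp F) : Lp ℂ 2 (volume : Measure (En (m + 1))))‖ =
          ‖(hFk k).toLp _ - hF.toLp F‖ :=
        (Lp.fourierTransformₗᵢ (En (m + 1)) ℂ).symm.norm_map _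
      rw [e2, ← MemLp.toLp_sub, Lp.norm_toLp]
      congr 1
      refine eLpNorm_congr_norm_ae (Eventually.of_forall fun ξ => ?_)
      simp only [Pi.sub_apply]
      by_cases hξ : ‖ξ‖ < k
      · have a1 : ξ ∈ shell (m + 1) 0 k := ⟨norm_nonneg _, hξ⟩
        have a2 : ξ ∉ {ξ : En (m + 1) | (k : ℝ) ≤ ‖ξ‖} := not_le.2 hξ
        rw [indicator_of_mem a1, tail, indicator_of_notMem a2, sub_self]
      · have a1 : ξ ∉ shell (m + 1) 0 k := fun h' => hξ h'.2
        have a2 : ξ ∈ {ξ : En (m + 1) | (k : ℝ) ≤ ‖ξ‖} := not_lt.1 hξ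
        rw [indicator_of_notMem a1, tail, indicator_of_mem a2, zero_sub, norm_neg]
    simp_rw [h3]
    have h4 := tail_tendsto hF (c := fun k : ℕ => (k : ℝ)) tendsto_natCast_atTop_atTop
    have h5 : ∀ k : ℕ, (eLpNorm (tail (k : ℝ) F) 2) =
        (∫⁻ ξ, ‖tail (k : ℝ) F ξ‖ₑ ^ 2) ^ (1 / 2 : ℝ) := by
      intro k
      rw [eLpNorm_eq_lintegral_rpow_enorm_toReal (by norm_num) (by norm_num)]
      norm_num
    simp_rw [h5]
    have h6 : Tendsto (fun k : ℕ => (∫⁻ ξ, ‖tail (k : ℝ) F ξ‖ₑ ^ 2) ^ (1 / 2 : ℝ)) atTop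
        (𝓝 ((0 : ℝ≥0∞) ^ (1 / 2 : ℝ))) :=
      (ENNReal.continuous_rpow_const.tendsto _).comp h4
    rw [ENNReal.zero_rpow_of_pos (by norm_num)] at h6
    have := (ENNReal.tendsto_toReal ENNReal.zero_ne_top).comp h6
    simpa [Function.comp_def] using this
  have h3 : TendstoInMeasure volume (fun k x => Uk k x) atTop (U : En (m + 1) → ℂ) :=
    tendstoInMeasure_of_tendsto_Lp h2
  obtain ⟨ns, hns, h4⟩ := h3.exists_seq_tendsto_ae
  have h5 : ∀ᵐ x : En (m + 1), ∀ k : ℕ, (Uk k : En (m + 1) → ℂ) x = ps F k x :=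
    ae_all_iff.2 h1
  filter_upwards [h, h4, h5] with x ⟨L, hL⟩ hx4 hx5
  have h6 : Tendsto (fun i => ps F ((ns i : ℕ) : ℝ) x) atTop (𝓝 (U x)) := by
    refine hx4.congr fun i => ?_
    exact hx5 (ns i)
  have h7 : Tendsto (fun i => ps F ((ns i : ℕ) : ℝ) x) atTop (𝓝 L) :=
    hL.comp (tendsto_natCast_atTop_atTop.comp hns.tendsto_atTop)
  rw [tendsto_nhds_unique h6 h7]
  exact hL

/-- the mean square distance of the ball partial sum to the inverse Fourier transform -/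
lemma dist_eq {m : ℕ} {F : En (m + 1) → ℂ} (hF : MemLp F 2) (R : ℝ) :
    ∫⁻ x, ‖ps F R x - (𝓕⁻ (hF.toLp F) : Lp ℂ 2 (volume : Measure (En (m + 1)))) x‖ₑ ^ 2 =
      ∫⁻ ξ, ‖tail R F ξ‖ₑ ^ 2 := by
  set U : Lp ℂ 2 (volume : Measure (En (m + 1))) := 𝓕⁻ (hF.toLp F) with hU
  have hFR : MemLp ((shell (m + 1) 0 R).indicator F) 2 := hF.indicator (shell_meas _ _ _)
  have hFi : Integrable ((shell (m + 1) 0 R).indicator F) := ind_int hF _ _
  set UR : Lp ℂ 2 (volume : Measure (En (m + 1))) := 𝓕⁻ (hFR.toLp _) with hUR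
  have h1 : (UR : En (m + 1) → ℂ) =ᵐ[volume] fun x => ps F R x := by
    filter_upwards [finv_ae_eq _ hFi hFR] with x hx
    rw [hx, ps_eq, Fi_eq]
  have h2 : ‖UR - U‖ₑ = eLpNorm (tail R F) 2 := by
    have e1 : UR - U = 𝓕⁻ (hFR.toLp _ - hF.toLp F) := by
      rw [hUR, hU]
      simp only [sub_eq_add_neg]
      rw [FourierTransform.fourierInv_add]
      congr 1
      simp
    have e2 : ‖(𝓕⁻ (hFR.toLp _ - hF.toLp F) : Lp ℂ 2 (volume : Measure (En (m + 1))))‖ₑ =
        ‖hFR.toLp _ - hF.toLp F‖ₑ := by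
      have := (Lp.fourierTransformₗᵢ (En (m + 1)) ℂ).symm.norm_map (hFR.toLp _ - hF.toLp F)
      rw [← ofReal_norm, ← ofReal_norm]
      exact congrArg ENNReal.ofReal this
    rw [e1, e2, ← MemLp.toLp_sub, Lp.enorm_toLp]
    refine eLpNorm_congr_norm_ae (Eventually.of_forall fun ξ => ?_)
    simp only [Pi.sub_apply]
    by_cases hξ : ‖ξ‖ < R
    · have a1 : ξ ∈ shell (m + 1) 0 R := ⟨norm_nonneg _, hξ⟩
      have a2 : ξ ∉ {ξ : En (m + 1) | R ≤ ‖ξ‖} := not_le.2 hξ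
      rw [indicator_of_mem a1, tail, indicator_of_notMem a2, sub_self]
    · have a1 : ξ ∉ shell (m + 1) 0 R := fun h' => hξ h'.2
      have a2 : ξ ∈ {ξ : En (m + 1) | R ≤ ‖ξ‖} := not_lt.1 hξ
      rw [indicator_of_notMem a1, tail, indicator_of_mem a2, zero_sub, norm_neg]
  have h5 : ∀ g : En (m + 1) → ℂ, eLpNorm g 2 ^ 2 = ∫⁻ ξ, ‖g ξ‖ₑ ^ 2 := by
    intro g
    rw [eLpNorm_eq_lintegral_rpow_enorm_toReal (by norm_num) (by norm_num), ← ENNReal.rpow_natCast,
      ← ENNReal.rpow_mul]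
    norm_num
  rw [← h5 (tail R F), ← h2, Lp.enorm_def, h5]
  refine lintegral_congr_ae ?_
  filter_upwards [h1, Lp.coeFn_sub UR U] with x hx hx2
  rw [hx2, Pi.sub_apply, hx]

/-- the limit, if it exists almost everywhere, is also the limit in mean square -/
theorem limit_L2 {m : ℕ} {F : En (m + 1) → ℂ} (hF : MemLp F 2)
    (h : ∀ᵐ x : En (m + 1), ∃ L : ℂ, Tendsto (fun R => ps F R x) atTop (𝓝 L)) :
    ∃ u : En (m + 1) → ℂ, (MemLp u 2 ∧
      Tendsto (fun R : ℝ => ∫⁻ x, ‖ps F R x - u x‖ₑ ^ 2) atTop (𝓝 0)) ∧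
      ∀ᵐ x : En (m + 1), Tendsto (fun R => ps F R x) atTop (𝓝 (u x)) := by
  refine ⟨fun x => (𝓕⁻ (hF.toLp F) : Lp ℂ 2 (volume : Measure (En (m + 1)))) x,
    ⟨Lp.memLp _, ?_⟩, limit_eq hF h⟩
  simp_rw [dist_eq hF]
  exact tendsto_of_seq_tendsto fun c hc => tail_tendsto hF hc

end Pool.Agent.U37.Sch
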